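import Pool.Agent.Lib.MP_67d80e_pr_ub.Mono

/-!
The table of the upper bounds.
-/

set_option autoImplicit false

open Pool.Agent.Lib.MP_67d80e_pr_all

namespace Pool.Agent.Lib.MP_67d80e_pr_ub

/-- at most 2 -/
theorem ub_2 {n : ℕ} (hn : n + 1 ≤ 2) : HasUB n (5129 / 1000) := by
  refine hasUB_block (D := 2) (a := 112) (b := 125) (q := (49 / 20)) (r := (919 / 200))
    (v := ⟨2000, 1951, 1355, 1785, 1733, 794, 1416, 1380, 915, 1552, 674, 1251⟩) hn (by norm_num) ?_ (by norm_num)
    (by norm_num) (by norm_num) (by norm_num)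
  constructor <;> norm_num

/-- at most 3 -/
theorem ub_3 {n : ℕ} (hn : n + 1 ≤ 3) : HasUB n (3323 / 500) := by
  refine hasUB_block (D := 3) (a := 109) (b := 95) (q := (63 / 20)) (r := (61 / 8))
    (v := ⟨2000, 1971, 1405, 1839, 1816, 887, 1550, 1527, 1054, 1672, 788, 1417⟩) hn (by norm_num) ?_ (by norm_num)
    (by norm_num) (by norm_num) (by norm_num)
  constructor <;> norm_num

/-- at most 4 -/
theorem ub_4 {n : ℕ} (hn : n + 1 ≤ 4) : HasUB n (8013 / 1000) := by
  refine hasUB_block (D := 4) (a := 152) (b := 115) (q := (15 / 4)) (r := (1059 / 100))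
    (v := ⟨2000, 1980, 1446, 1870, 1857, 961, 1632, 1615, 1152, 1738, 876, 1520⟩) hn (by norm_num) ?_ (by norm_num)
    (by norm_num) (by norm_num) (by norm_num)
  constructor <;> norm_num

/-- at most 5 -/
theorem ub_5 {n : ℕ} (hn : n + 1 ≤ 5) : HasUB n (1159 / 125) := by
  refine hasUB_block (D := 5) (a := 197) (b := 134) (q := (87 / 20)) (r := (1363 / 100))
    (v := ⟨2000, 1985, 1475, 1892, 1885, 1014, 1690, 1677, 1223, 1784, 941, 1594⟩) hn (by norm_num) ?_ (by norm_num)
    (by norm_num) (by norm_num) (by norm_num)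
  constructor <;> norm_num

/-- at most 6 -/
theorem ub_6 {n : ℕ} (hn : n + 1 ≤ 6) : HasUB n (523 / 50) := by
  refine hasUB_block (D := 6) (a := 219) (b := 137) (q := (99 / 20)) (r := (418 / 25))
    (v := ⟨2000, 1989, 1496, 1907, 1904, 1055, 1733, 1723, 1277, 1816, 990, 1649⟩) hn (by norm_num) ?_ (by norm_num)
    (by norm_num) (by norm_num) (by norm_num)
  constructor <;> norm_num

/-- at most 7 -/
theorem ub_7 {n : ℕ} (hn : n + 1 ≤ 7) : HasUB n (463 / 40) := by
  refine hasUB_block (D := 7) (a := 75) (b := 44) (q := (11 / 2)) (r := (1973 / 100))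
    (v := ⟨2000, 1991, 1515, 1919, 1917, 1089, 1764, 1756, 1319, 1840, 1031, 1690⟩) hn (by norm_num) ?_ (by norm_num)
    (by norm_num) (by norm_num) (by norm_num)
  constructor <;> norm_num

/-- at most 8 -/
theorem ub_8 {n : ℕ} (hn : n + 1 ≤ 8) : HasUB n (2529 / 200) := by
  refine hasUB_block (D := 8) (a := 43) (b := 24) (q := 6) (r := (4531 / 200))
    (v := ⟨4000, 3985, 3062, 3855, 3853, 2239, 3577, 3563, 2708, 3714, 2133, 3443⟩) hn (by norm_num) ?_ (by norm_num)
    (by norm_num) (by norm_num) (by norm_num)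
  constructor <;> norm_num

/-- at most 9 -/
theorem ub_9 {n : ℕ} (hn : n + 1 ≤ 9) : HasUB n (547 / 40) := by
  refine hasUB_block (D := 9) (a := 73) (b := 39) (q := (13 / 2)) (r := (5119 / 200))
    (v := ⟨4000, 3987, 3088, 3869, 3869, 2289, 3617, 3605, 2766, 3743, 2192, 3495⟩) hn (by norm_num) ?_ (by norm_num)
    (by norm_num) (by norm_num) (by norm_num)
  constructor <;> norm_num

/-- at most 10 -/
theorem ub_10 {n : ℕ} (hn : n + 1 ≤ 10) : HasUB n (1834 / 125) := by
  refine hasUB_block (D := 10) (a := 179) (b := 92) (q := 7) (r := (5709 / 200))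
    (v := ⟨4000, 3989, 3110, 3880, 3882, 2330, 3650, 3640, 2814, 3766, 2241, 3538⟩) hn (by norm_num) ?_ (by norm_num)
    (by norm_num) (by norm_num) (by norm_num)
  constructor <;> norm_num

/-- at most 11 -/
theorem ub_11 {n : ℕ} (hn : n + 1 ≤ 11) : HasUB n (7819 / 500) := by
  refine hasUB_block (D := 11) (a := 137) (b := 68) (q := (15 / 2)) (r := (6301 / 200))
    (v := ⟨2000, 1995, 1564, 1945, 1946, 1182, 1839, 1834, 1427, 1893, 1141, 1787⟩) hn (by norm_num) ?_ (by norm_num)
    (by norm_num) (by norm_num) (by norm_num)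
  constructor <;> norm_num

/-- at most 12 -/
theorem ub_12 {n : ℕ} (hn : n + 1 ≤ 12) : HasUB n (16577 / 1000) := by
  refine hasUB_block (D := 12) (a := 85) (b := 41) (q := (159 / 20)) (r := (6873 / 200))
    (v := ⟨2000, 1996, 1574, 1949, 1950, 1200, 1850, 1846, 1446, 1901, 1161, 1802⟩) hn (by norm_num) ?_ (by norm_num)
    (by norm_num) (by norm_num) (by norm_num)
  constructor <;> norm_num

/-- at most 13 -/
theorem ub_13 {n : ℕ} (hn : n + 1 ≤ 13) : HasUB n (8747 / 500) := by
  refine hasUB_block (D := 13) (a := 83) (b := 39) (q := (42 / 5)) (r := (3723 / 100))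
    (v := ⟨10000, 9982, 7908, 9763, 9770, 6073, 9302, 9284, 7310, 9539, 5892, 9076⟩) hn (by norm_num) ?_ (by norm_num)
    (by norm_num) (by norm_num) (by norm_num)
  constructor <;> norm_num

/-- at most 14 -/
theorem ub_14 {n : ℕ} (hn : n + 1 ≤ 14) : HasUB n (2299 / 125) := by
  refine hasUB_block (D := 14) (a := 133) (b := 61) (q := (177 / 20)) (r := (401 / 10))
    (v := ⟨4000, 3993, 3177, 3911, 3914, 2456, 3738, 3732, 2952, 3828, 2387, 3653⟩) hn (by norm_num) ?_ (by norm_num)
    (by norm_num) (by norm_num) (by norm_num)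
  constructor <;> norm_num

/-- at most 15 -/
theorem ub_15 {n : ℕ} (hn : n + 1 ≤ 15) : HasUB n (2409 / 125) := by
  refine hasUB_block (D := 15) (a := 223) (b := 100) (q := (93 / 10)) (r := (1719 / 40))
    (v := ⟨4000, 3994, 3189, 3917, 3920, 2479, 3754, 3748, 2977, 3838, 2414, 3674⟩) hn (by norm_num) ?_ (by norm_num)
    (by norm_num) (by norm_num) (by norm_num)
  constructor <;> norm_num

/-- at most 16 -/
theorem ub_16 {n : ℕ} (hn : n + 1 ≤ 16) : HasUB n (4027 / 200) := by
  refine hasUB_block (D := 16) (a := 230) (b := 101) (q := (39 / 4)) (r := (917 / 20))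
    (v := ⟨10000, 9987, 8001, 9803, 9812, 6249, 9418, 9406, 7498, 9619, 6096, 9229⟩) hn (by norm_num) ?_ (by norm_num)
    (by norm_num) (by norm_num) (by norm_num)
  constructor <;> norm_num

/-- at most 18 -/
theorem ub_18 {n : ℕ} (hn : n + 1 ≤ 18) : HasUB n (1091 / 50) := by
  refine hasUB_block (D := 18) (a := 139) (b := 59) (q := (211 / 20)) (r := (10281 / 200))
    (v := ⟨4000, 3995, 3223, 3929, 3932, 2542, 3790, 3786, 3041, 3863, 2486, 3722⟩) hn (by norm_num) ?_ (by norm_num)
    (by norm_num) (by norm_num) (by norm_num)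
  constructor <;> norm_num

/-- at most 20 -/
theorem ub_20 {n : ℕ} (hn : n + 1 ≤ 20) : HasUB n (11727 / 500) := by
  refine hasUB_block (D := 20) (a := 73) (b := 30) (q := (57 / 5)) (r := (5707 / 100))
    (v := ⟨10000, 9990, 8099, 9839, 9848, 6434, 9522, 9513, 7683, 9689, 6306, 9366⟩) hn (by norm_num) ?_ (by norm_num)
    (by norm_num) (by norm_num) (by norm_num)
  constructor <;> norm_num

/-- at most 22 -/
theorem ub_22 {n : ℕ} (hn : n + 1 ≤ 22) : HasUB n (3132 / 125) := by
  refine hasUB_block (D := 22) (a := 5) (b := 2) (q := (61 / 5)) (r := (1566 / 25))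
    (v := ⟨4000, 3997, 3255, 3941, 3944, 2603, 3824, 3821, 3102, 3886, 2556, 3767⟩) hn (by norm_num) ?_ (by norm_num)
    (by norm_num) (by norm_num) (by norm_num)
  constructor <;> norm_num

/-- at most 24 -/
theorem ub_24 {n : ℕ} (hn : n + 1 ≤ 24) : HasUB n (6649 / 250) := by
  refine hasUB_block (D := 24) (a := 105) (b := 41) (q := (259 / 20)) (r := (6811 / 100))
    (v := ⟨4000, 3997, 3271, 3945, 3949, 2631, 3837, 3835, 3128, 3895, 2587, 3784⟩) hn (by norm_num) ?_ (by norm_num)
    (by norm_num) (by norm_num) (by norm_num)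
  constructor <;> norm_num

/-- at most 27 -/
theorem ub_27 {n : ℕ} (hn : n + 1 ≤ 27) : HasUB n (28863 / 1000) := by
  refine hasUB_block (D := 27) (a := 172) (b := 65) (q := (141 / 10)) (r := (611 / 8))
    (v := ⟨10000, 9994, 8221, 9877, 9885, 6661, 9635, 9629, 7900, 9764, 6562, 9515⟩) hn (by norm_num) ?_ (by norm_num)
    (by norm_num) (by norm_num) (by norm_num)
  constructor <;> norm_num

/-- at most 30 -/
theorem ub_30 {n : ℕ} (hn : n + 1 ≤ 30) : HasUB n (31073 / 1000) := by
  refine hasUB_block (D := 30) (a := 117) (b := 43) (q := (76 / 5)) (r := (16909 / 200))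
    (v := ⟨4000, 3998, 3305, 3955, 3958, 2694, 3867, 3865, 3187, 3914, 2658, 3823⟩) hn (by norm_num) ?_ (by norm_num)
    (by norm_num) (by norm_num) (by norm_num)
  constructor <;> norm_num

/-- at most 34 -/
theorem ub_34 {n : ℕ} (hn : n + 1 ≤ 34) : HasUB n (33933 / 1000) := by
  refine hasUB_block (D := 34) (a := 239) (b := 85) (q := (333 / 20)) (r := (9541 / 100))
    (v := ⟨4000, 3998, 3323, 3960, 3963, 2728, 3881, 3880, 3217, 3924, 2695, 3842⟩) hn (by norm_num) ?_ (by norm_num)
    (by norm_num) (by norm_num) (by norm_num)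
  constructor <;> norm_num

/-- at most 38 -/
theorem ub_38 {n : ℕ} (hn : n + 1 ≤ 38) : HasUB n (7341 / 200) := by
  refine hasUB_block (D := 38) (a := 81) (b := 28) (q := (361 / 20)) (r := (5309 / 50))
    (v := ⟨20000, 19993, 16690, 19820, 19834, 13782, 19464, 19457, 16214, 19656, 13634, 19287⟩) hn (by norm_num) ?_ (by norm_num)
    (by norm_num) (by norm_num) (by norm_num)
  constructor <;> norm_num

/-- at most 43 -/
theorem ub_43 {n : ℕ} (hn : n + 1 ≤ 43) : HasUB n (40077 / 1000) := by
  refine hasUB_block (D := 43) (a := 152) (b := 51) (q := (197 / 10)) (r := (23889 / 200))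
    (v := ⟨20000, 19994, 16780, 19839, 19852, 13946, 19521, 19515, 16352, 19693, 13813, 19363⟩) hn (by norm_num) ?_ (by norm_num)
    (by norm_num) (by norm_num) (by norm_num)
  constructor <;> norm_num

/-- at most 48 -/
theorem ub_48 {n : ℕ} (hn : n + 1 ≤ 48) : HasUB n (10841 / 250) := by
  refine hasUB_block (D := 48) (a := 101) (b := 33) (q := (427 / 20)) (r := (3318 / 25))
    (v := ⟨10000, 9998, 8426, 9927, 9933, 7040, 9783, 9781, 8232, 9861, 6979, 9712⟩) hn (by norm_num) ?_ (by norm_num)
    (by norm_num) (by norm_num) (by norm_num)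
  constructor <;> norm_num

/-- at most 54 -/
theorem ub_54 {n : ℕ} (hn : n + 1 ≤ 54) : HasUB n (47201 / 1000) := by
  refine hasUB_block (D := 54) (a := 85) (b := 27) (q := (233 / 10)) (r := (29719 / 200))
    (v := ⟨20000, 19996, 16924, 19870, 19881, 14213, 19611, 19607, 16575, 19751, 14104, 19483⟩) hn (by norm_num) ?_ (by norm_num)
    (by norm_num) (by norm_num) (by norm_num)
  constructor <;> norm_num

/-- at most 60 -/
theorem ub_60 {n : ℕ} (hn : n + 1 ≤ 60) : HasUB n (10189 / 200) := by
  refine hasUB_block (D := 60) (a := 158) (b := 49) (q := (503 / 20)) (r := (16427 / 100))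
    (v := ⟨20000, 19997, 16991, 19882, 19892, 14337, 19647, 19644, 16674, 19775, 14237, 19530⟩) hn (by norm_num) ?_ (by norm_num)
    (by norm_num) (by norm_num) (by norm_num)
  constructor <;> norm_num

/-- at most 68 -/
theorem ub_68 {n : ℕ} (hn : n + 1 ≤ 68) : HasUB n (5581 / 100) := by
  refine hasUB_block (D := 68) (a := 209) (b := 63) (q := (138 / 5)) (r := (37029 / 200))
    (v := ⟨20000, 19997, 17064, 19895, 19904, 14472, 19686, 19683, 16781, 19799, 14383, 19582⟩) hn (by norm_num) ?_ (by norm_num)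
    (by norm_num) (by norm_num) (by norm_num)
  constructor <;> norm_num

/-- at most 76 -/
theorem ub_76 {n : ℕ} (hn : n + 1 ≤ 76) : HasUB n (12117 / 200) := by
  refine hasUB_block (D := 76) (a := 248) (b := 73) (q := (599 / 20)) (r := (10291 / 50))
    (v := ⟨100000, 99988, 85650, 99526, 99568, 72962, 98582, 98570, 84368, 99096, 72558, 98112⟩) hn (by norm_num) ?_ (by norm_num)
    (by norm_num) (by norm_num) (by norm_num)
  constructor <;> norm_num

/-- at most 86 -/
theorem ub_86 {n : ℕ} (hn : n + 1 ≤ 86) : HasUB n (33163 / 500) := by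
  refine hasUB_block (D := 86) (a := 213) (b := 61) (q := (657 / 20)) (r := (46319 / 200))
    (v := ⟨20000, 19998, 17198, 19915, 19923, 14718, 19747, 19745, 16969, 19839, 14645, 19663⟩) hn (by norm_num) ?_ (by norm_num)
    (by norm_num) (by norm_num) (by norm_num)
  constructor <;> norm_num

/-- at most 96 -/
theorem ub_96 {n : ℕ} (hn : n + 1 ≤ 96) : HasUB n (35983 / 500) := by
  refine hasUB_block (D := 96) (a := 143) (b := 40) (q := (357 / 10)) (r := (10291 / 40))
    (v := ⟨10000, 9999, 8628, 9962, 9965, 7412, 9886, 9885, 8524, 9927, 7379, 9848⟩) hn (by norm_num) ?_ (by norm_num)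
    (by norm_num) (by norm_num) (by norm_num)
  constructor <;> norm_num

/-- at most 108 -/
theorem ub_108 {n : ℕ} (hn : n + 1 ≤ 108) : HasUB n (19653 / 250) := by
  refine hasUB_block (D := 108) (a := 249) (b := 68) (q := 39) (r := (57571 / 200))
    (v := ⟨100000, 99993, 86586, 99659, 99690, 74682, 98978, 98972, 85656, 99350, 74387, 98639⟩) hn (by norm_num) ?_ (by norm_num)
    (by norm_num) (by norm_num) (by norm_num)
  constructor <;> norm_num

/-- at most 120 -/
theorem ub_120 {n : ℕ} (hn : n + 1 ≤ 120) : HasUB n (42523 / 500) := by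
  refine hasUB_block (D := 120) (a := 116) (b := 31) (q := (211 / 5)) (r := (63647 / 200))
    (v := ⟨20000, 19999, 17372, 19938, 19944, 15036, 19815, 19814, 17203, 19882, 14983, 19753⟩) hn (by norm_num) ?_ (by norm_num)
    (by norm_num) (by norm_num) (by norm_num)
  constructor <;> norm_num

/-- at most 135 -/
theorem ub_135 {n : ℕ} (hn : n + 1 ≤ 135) : HasUB n (23247 / 250) := by
  refine hasUB_block (D := 135) (a := 249) (b := 65) (q := (231 / 5)) (r := (71243 / 200))
    (v := ⟨100000, 99995, 87135, 99723, 99749, 75688, 99171, 99167, 86377, 99473, 75447, 98896⟩) hn (by norm_num) ?_ (by norm_num)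
    (by norm_num) (by norm_num) (by norm_num)
  constructor <;> norm_num

/-- at most 150 -/
theorem ub_150 {n : ℕ} (hn : n + 1 ≤ 150) : HasUB n (100683 / 1000) := by
  refine hasUB_block (D := 150) (a := 223) (b := 57) (q := (1001 / 20)) (r := (3939 / 10))
    (v := ⟨20000, 19999, 17477, 19950, 19955, 15230, 19850, 19849, 17340, 19905, 15186, 19800⟩) hn (by norm_num) ?_ (by norm_num)
    (by norm_num) (by norm_num) (by norm_num)
  constructor <;> norm_num

/-- at most 170 -/
theorem ub_170 {n : ℕ} (hn : n + 1 ≤ 170) : HasUB n (22199 / 200) := by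
  refine hasUB_block (D := 170) (a := 4) (b := 1) (q := (551 / 10)) (r := (22199 / 50))
    (v := ⟨100000, 99997, 87670, 99777, 99798, 76668, 99333, 99330, 87058, 99576, 76473, 99111⟩) hn (by norm_num) ?_ (by norm_num)
    (by norm_num) (by norm_num) (by norm_num)
  constructor <;> norm_num

/-- at most 190 -/
theorem ub_190 {n : ℕ} (hn : n + 1 ≤ 190) : HasUB n (30149 / 250) := by
  refine hasUB_block (D := 190) (a := 217) (b := 53) (q := 60) (r := (12344 / 25))
    (v := ⟨100000, 99997, 87919, 99799, 99818, 77124, 99399, 99397, 87367, 99618, 76948, 99200⟩) hn (by norm_num) ?_ (by norm_num)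
    (by norm_num) (by norm_num) (by norm_num)
  constructor <;> norm_num

/-- at most 215 -/
theorem ub_215 {n : ℕ} (hn : n + 1 ≤ 215) : HasUB n (132671 / 1000) := by
  refine hasUB_block (D := 215) (a := 243) (b := 58) (q := (1321 / 20)) (r := (111169 / 200))
    (v := ⟨100000, 99998, 88179, 99822, 99838, 77600, 99466, 99464, 87687, 99660, 77443, 99288⟩) hn (by norm_num) ?_ (by norm_num)
    (by norm_num) (by norm_num) (by norm_num)
  constructor <;> norm_num

/-- at most 240 -/
theorem ub_240 {n : ℕ} (hn : n + 1 ≤ 240) : HasUB n (72223 / 500) := by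
  refine hasUB_block (D := 240) (a := 124) (b := 29) (q := (1439 / 20)) (r := (61763 / 100))
    (v := ⟨100000, 99998, 88405, 99839, 99854, 78014, 99519, 99517, 87961, 99694, 77873, 99359⟩) hn (by norm_num) ?_ (by norm_num)
    (by norm_num) (by norm_num) (by norm_num)
  constructor <;> norm_num

/-- at most 270 -/
theorem ub_270 {n : ℕ} (hn : n + 1 ≤ 270) : HasUB n (31663 / 200) := by
  refine hasUB_block (D := 270) (a := 214) (b := 49) (q := (1577 / 20)) (r := (138283 / 200))
    (v := ⟨100000, 99999, 88643, 99856, 99870, 78451, 99570, 99568, 88246, 99726, 78324, 99426⟩) hn (by norm_num) ?_ (by norm_num)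
    (by norm_num) (by norm_num) (by norm_num)
  constructor <;> norm_num

/-- at most 300 -/
theorem ub_300 {n : ℕ} (hn : n + 1 ≤ 300) : HasUB n (171933 / 1000) := by
  refine hasUB_block (D := 300) (a := 89) (b := 20) (q := (857 / 10)) (r := (7651 / 10))
    (v := ⟨100000, 99999, 88841, 99870, 99882, 78814, 99611, 99610, 88481, 99752, 78698, 99481⟩) hn (by norm_num) ?_ (by norm_num)
    (by norm_num) (by norm_num) (by norm_num)
  constructor <;> norm_num

/-- at most 330 -/
theorem ub_330 {n : ℕ} (hn : n + 1 ≤ 330) : HasUB n (4632 / 25) := by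
  refine hasUB_block (D := 330) (a := 181) (b := 40) (q := (1847 / 20)) (r := (83839 / 100))
    (v := ⟨100000, 99999, 89023, 99881, 99892, 79146, 99645, 99644, 88693, 99774, 79041, 99526⟩) hn (by norm_num) ?_ (by norm_num)
    (by norm_num) (by norm_num) (by norm_num)
  constructor <;> norm_num

/-- at most 360 -/
theorem ub_360 {n : ℕ} (hn : n + 1 ≤ 360) : HasUB n (198417 / 1000) := by
  refine hasUB_block (D := 360) (a := 147) (b := 32) (q := (989 / 10)) (r := (36459 / 40))
    (v := ⟨100000, 99999, 89184, 99891, 99901, 79442, 99673, 99672, 88880, 99792, 79344, 99564⟩) hn (by norm_num) ?_ (by norm_num)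
    (by norm_num) (by norm_num) (by norm_num)
  constructor <;> norm_num

end Pool.Agent.Lib.MP_67d80e_pr_ub
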