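import Pool.Agent.Lib.MP_67d80e_pr_ub.HasUB

/-!
Monotonicity in the dimension: one set of twelve numbers for a block of dimensions.
-/

set_option autoImplicit false

open scoped BigOperators
open Filter MeasureTheory
open Pool.Agent.Lib.MP_67d80e_pr

namespace Pool.Agent.Lib.MP_67d80e_pr_ub

/-- the inequalities are monotone in the dimension -/
lemma Pot.Ok.mono {v : Pot} {D D' q r : ℝ} (h : v.Ok D q r) (hD : D' ≤ D) : v.Ok D' q r := by
  have h0 := h.r_nonneg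
  have h1 : (0 : ℝ) < r + 2 := by linarith
  have h2 : (0 : ℝ) < r + 3 := by linarith
  have p4 := h.p7.le
  have p5 := h.p8.le
  have p6 := h.p9.le
  have p7 := h.p12.le
  refine ⟨h.r_nonneg, h.q_pos, h.p1, h.p2, h.p3, h.p4, h.p5, h.p6, h.p7, h.p8, h.p9, h.p10, h.p11,
    h.p12, le_trans ?_ h.c1, le_trans ?_ h.c2U, le_trans ?_ h.c2D, le_trans ?_ h.c2L,
    le_trans ?_ h.c3U, le_trans ?_ h.c3D, le_trans ?_ h.c3L, le_trans ?_ h.c4UL,
    le_trans ?_ h.c4DL, le_trans ?_ h.c4LU, le_trans ?_ h.c4LD, le_trans ?_ h.c4LL⟩ <;> gcongr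

lemma _root_.Pool.Agent.Lib.MP_67d80e_pr_all.HasUB.mono {n : ℕ} {U U' : ℝ}
    (h : Pool.Agent.Lib.MP_67d80e_pr_all.HasUB n U) (hU : U ≤ U') :
    Pool.Agent.Lib.MP_67d80e_pr_all.HasUB n U' := by
  intro R I
  obtain ⟨C, N0, hC⟩ := h R I
  refine ⟨C, N0, fun N hN => (hC N hN).trans ?_⟩
  gcongr

/-- a rational lower bound of a logarithm -/
lemma log_ge_of {q : ℝ} {a b : ℕ} (hb : 0 < b)
    (h : (2.7182818286 : ℝ) ^ a ≤ q ^ b) : (a : ℝ) / b ≤ Real.log q := by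
  have h1 : Real.exp 1 ≤ 2.7182818286 := Real.exp_one_lt_d9.le
  have h2 : Real.exp a ≤ q ^ b := by
    have h3 : Real.exp (a : ℝ) = Real.exp 1 ^ a := by
      rw [← Real.exp_nat_mul, mul_one]
    rw [h3]
    refine (pow_le_pow_left₀ (Real.exp_pos 1).le h1 a).trans h
  have h3 := Real.log_le_log (Real.exp_pos a) h2
  rw [Real.log_exp, Real.log_pow] at h3
  have hb' : (0 : ℝ) < b := by exact_mod_cast hb
  rw [div_le_iff₀ hb']
  linarith

/-- twelve numbers give the upper bound for a block of dimensions -/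
theorem hasUB_block {n D a b : ℕ} {v : Pot} {q r U : ℝ} (hn : n + 1 ≤ D) (hq : 1 < q)
    (h : v.Ok (D : ℝ) q r) (ha : 0 < a) (hb : 0 < b) (hlog : (2.7182818286 : ℝ) ^ a ≤ q ^ b)
    (hU : r * b / a ≤ U) : Pool.Agent.Lib.MP_67d80e_pr_all.HasUB n U := by
  have h1 : v.Ok ((n + 1 : ℕ) : ℝ) q r := h.mono (by exact_mod_cast hn)
  refine (hasUB_pot hq h1).mono ?_
  have h2 := log_ge_of hb hlog
  have ha' : (0 : ℝ) < a := by exact_mod_cast ha
  have hb' : (0 : ℝ) < b := by exact_mod_cast hb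
  have h3 : (0 : ℝ) < (a : ℝ) / b := by positivity
  refine le_trans ?_ hU
  calc r / Real.log q ≤ r / ((a : ℝ) / b) :=
        div_le_div_of_nonneg_left h.r_nonneg h3 h2
    _ = r * b / a := by field_simp

end Pool.Agent.Lib.MP_67d80e_pr_ub
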