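import Pool.Agent.Lib.MP_67d80e_pr.Growth

/-!
Upper bound for the speed of ballistic deposition: the augmented process. Every site carries, besides
its height, the number of moves of the canonical path which realises the height, the index of its last
ring and the type of the last one or two events of the canonical path.
-/

set_option autoImplicit false

open scoped BigOperators
open Filter MeasureTheory
open Pool.Agent.Lib.MP_67d80e_pr

namespace Pool.Agent.Lib.MP_67d80e_pr_ub

variable {d : ℕ}

/-- a signed direction -/
abbrev Dr (d : ℕ) := Fin d × Bool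

/-- the unit vector of a direction -/
def dv (f : Dr d) : Site d := if f.2 then e f.1 else -e f.1

/-- the opposite direction -/
def op (f : Dr d) : Dr d := (f.1, !f.2)

lemma dv_op (f : Dr d) : dv (op f) = -dv f := by
  rcases f with ⟨i, b⟩
  cases b <;> simp [dv, op]

lemma op_op (f : Dr d) : op (op f) = f := by
  rcases f with ⟨i, b⟩
  simp [op]

lemma dv_apply_same (f : Dr d) : dv f f.1 = if f.2 then 1 else -1 := by
  rcases f with ⟨i, b⟩
  cases b
  · simp [dv, e]
  · simp [dv, e]

lemma dv_apply_ne {f : Dr d} {i : Fin d} (h : i ≠ f.1) : dv f i = 0 := by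
  rcases f with ⟨j, b⟩
  have h' : i ≠ j := h
  cases b <;> simp [dv, e, Pi.single_eq_of_ne h']

lemma dv_abs_le (f : Dr d) (i : Fin d) : |dv f i| ≤ 1 := by
  by_cases h : i = f.1
  · subst h
    rw [dv_apply_same]
    split_ifs <;> simp
  · rw [dv_apply_ne h]; simp

lemma dv_ne_zero (f : Dr d) : dv f ≠ 0 := by
  intro h
  have := congrFun h f.1
  rw [dv_apply_same] at this
  split_ifs at this <;> simp at this

lemma le_newHeight_dv (h : Conf d) (y : Site d) (f : Dr d) : h (y + dv f) ≤ newHeight h y := by
  rcases f with ⟨i, b⟩
  cases b
  · have := sub_le_newHeight h y i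
    simpa [dv, sub_eq_add_neg] using this
  · have := add_le_newHeight h y i
    simpa [dv] using this

lemma le_newHeight_dv' (h : Conf d) (y : Site d) (f : Dr d) : h (y - dv f) ≤ newHeight h y := by
  have := le_newHeight_dv h y (op f)
  rwa [dv_op, ← sub_eq_add_neg] at this

lemma newHeight_cases (h : Conf d) (y : Site d) :
    h y + 1 = newHeight h y ∨ ∃ f : Dr d, h (y - dv f) = newHeight h y := by
  rcases newHeight_eq_or h y with h1 | ⟨i, h1 | h1⟩
  · left; exact h1.symm
  · right
    refine ⟨(i, false), ?_⟩
    rw [h1]
    simp [dv]
  · right
    refine ⟨(i, true), ?_⟩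
    rw [h1]
    simp [dv]

/-- the type of a particle: `S`: plain; `S1 f`: one stay after a move in direction `f`; `M1 f`: just
moved in direction `f`; `M2 f' f`: just moved in the perpendicular directions `f'`, then `f`. -/
inductive Ty (d : ℕ)
  | S : Ty d
  | S1 : Dr d → Ty d
  | M1 : Dr d → Ty d
  | M2 : Dr d → Dr d → Ty d
  deriving DecidableEq, Fintype

namespace Ty

/-- the type after a stay -/
def stay : Ty d → Ty d
  | S => S
  | S1 _ => S
  | M1 f => S1 f
  | M2 _ f => S1 f

/-- the type after a move -/
def move : Ty d → Dr d → Ty d
  | S, g => M1 g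
  | S1 _, g => M1 g
  | M1 f, g => if f.1 = g.1 then M1 g else M2 f g
  | M2 _ f, g => if f.1 = g.1 then M1 g else M2 f g

/-- the type after an event -/
def succ (t : Ty d) : Option (Dr d) → Ty d
  | none => stay t
  | some g => move t g

/-- the last direction -/
def la : Ty d → Option (Dr d)
  | S => none
  | S1 f => some f
  | M1 f => some f
  | M2 _ f => some f

/-- the last direction, if the last event was a move -/
def lm : Ty d → Option (Dr d)
  | S => none
  | S1 _ => none
  | M1 f => some f
  | M2 _ f => some f

/-- the direction before the last, for `M2` -/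
def pr : Ty d → Option (Dr d)
  | M2 f' _ => some f'
  | _ => none

/-- the events which are allowed after the type -/
def alw (t : Ty d) : Option (Dr d) → Prop
  | none => True
  | some g => la t ≠ some (op g) ∧ pr t ≠ some (op g)

instance (t : Ty d) (o : Option (Dr d)) : Decidable (alw t o) := by
  cases o <;> unfold alw <;> infer_instance

/-- the offsets of the sites, apart from the site itself, whose ring switches the flag off -/
def kil (t : Ty d) : Option (Dr d) → List (Site d)
  | none => match lm t with
    | none => []
    | some f => [-dv f]
  | some g => match lm t with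
    | none => [dv g]
    | some f => if f.1 = g.1 then [dv g] else [dv g, dv g - dv f]

end Ty

open Ty

/-- the augmented configuration -/
structure Aug (d : ℕ) where
  /-- the heights -/
  h : Conf d
  /-- the numbers of moves -/
  n : Site d → ℤ
  /-- the indices of the last rings -/
  T : Site d → ℤ
  /-- the types -/
  ty : Site d → Ty d
  /-- the clock -/
  t : ℤ

/-- a source which realises the new height -/
def Val (c : Aug d) (y : Site d) : Option (Dr d) → Prop
  | none => c.h y + 1 = newHeight c.h y
  | some f => c.h (y - dv f) = newHeight c.h y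

/-- the resulting number of moves -/
def rN (c : Aug d) (y : Site d) : Option (Dr d) → ℤ
  | none => c.n y
  | some f => c.n (y - dv f) + 1

/-- the best source: fewest moves, then a neighbour before the site itself, then the latest ring -/
structure IsBest (c : Aug d) (y : Site d) (o : Option (Dr d)) : Prop where
  val : Val c y o
  min : ∀ o', Val c y o' → rN c y o ≤ rN c y o'
  own : o = none → ∀ f, Val c y (some f) → rN c y none ≠ rN c y (some f)
  last : ∀ f g, o = some f → Val c y (some g) → rN c y (some g) = rN c y (some f) →
    c.T (y - dv g) ≤ c.T (y - dv f)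

lemma exists_best (c : Aug d) (y : Site d) : ∃ o, IsBest c y o := by
  classical
  set V : Finset (Option (Dr d)) := Finset.univ.filter (Val c y) with hV
  have hne : V.Nonempty := by
    rcases newHeight_cases c.h y with h1 | ⟨f, h1⟩
    · exact ⟨none, by simpa [hV, Val] using h1⟩
    · exact ⟨some f, by simpa [hV, Val] using h1⟩
  obtain ⟨o1, ho1, hmin⟩ := Finset.exists_min_image V (rN c y) hne
  have ho1v : Val c y o1 := by simpa [hV] using ho1
  have hmin' : ∀ o', Val c y o' → rN c y o1 ≤ rN c y o' := fun o' ho' =>
    hmin o' (by simpa [hV] using ho')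
  set V2 : Finset (Dr d) := Finset.univ.filter (fun f => Val c y (some f) ∧
    rN c y (some f) = rN c y o1) with hV2
  by_cases hne2 : V2.Nonempty
  · obtain ⟨f, hf, hmax⟩ := Finset.exists_max_image V2 (fun f => c.T (y - dv f)) hne2
    have hf' : Val c y (some f) ∧ rN c y (some f) = rN c y o1 := by simpa [hV2] using hf
    refine ⟨some f, hf'.1, fun o' ho' => ?_, fun h => by simp at h, fun f' g hff' hg hr => ?_⟩
    · rw [hf'.2]; exact hmin' o' ho'
    · obtain rfl : f = f' := by simpa using hff'
      exact hmax g (by simp [hV2, hg, hr, hf'.2])
  · have h3 : ∀ f, Val c y (some f) → rN c y (some f) ≠ rN c y o1 := fun f hf hr =>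
      hne2 ⟨f, by simp [hV2, hf, hr]⟩
    have ho1n : o1 = none := by
      cases o1 with
      | none => rfl
      | some f => exact absurd rfl (h3 f ho1v)
    subst ho1n
    exact ⟨none, ho1v, hmin', fun _ f hf hr => h3 f hf hr.symm, fun f g h => by simp at h⟩

/-- a choice of the best source -/
noncomputable def best (c : Aug d) (y : Site d) : Option (Dr d) := Classical.choose (exists_best c y)

lemma best_spec (c : Aug d) (y : Site d) : IsBest c y (best c y) :=
  Classical.choose_spec (exists_best c y)

/-- the site of the source -/
def src (y : Site d) : Option (Dr d) → Site d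
  | none => y
  | some f => y - dv f

open Classical in
/-- simultaneous rings at the sites of `A` -/
noncomputable def ringA (A : Set (Site d)) (c : Aug d) : Aug d where
  h := ringSet A c.h
  n y := if y ∈ A then rN c y (best c y) else c.n y
  T y := if y ∈ A then c.t + 1 else c.T y
  ty y := if y ∈ A then (c.ty (src y (best c y))).succ (best c y) else c.ty y
  t := c.t + 1

lemma ringA_h (A : Set (Site d)) (c : Aug d) : (ringA A c).h = ringSet A c.h := rfl

lemma ringA_t (A : Set (Site d)) (c : Aug d) : (ringA A c).t = c.t + 1 := rfl

section
variable {A : Set (Site d)} {c : Aug d} {y : Site d}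

lemma ringA_h_mem (hy : y ∈ A) : (ringA A c).h y = newHeight c.h y := ringSet_of_mem hy c.h
lemma ringA_h_not (hy : y ∉ A) : (ringA A c).h y = c.h y := ringSet_of_notMem hy c.h
lemma ringA_n_mem (hy : y ∈ A) : (ringA A c).n y = rN c y (best c y) := by simp [ringA, hy]
lemma ringA_n_not (hy : y ∉ A) : (ringA A c).n y = c.n y := by simp [ringA, hy]
lemma ringA_T_mem (hy : y ∈ A) : (ringA A c).T y = c.t + 1 := by simp [ringA, hy]
lemma ringA_T_not (hy : y ∉ A) : (ringA A c).T y = c.T y := by simp [ringA, hy]
lemma ringA_ty_mem (hy : y ∈ A) :
    (ringA A c).ty y = (c.ty (src y (best c y))).succ (best c y) := by simp [ringA, hy]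
lemma ringA_ty_not (hy : y ∉ A) : (ringA A c).ty y = c.ty y := by simp [ringA, hy]

end

/-- the flag of an event is on -/
def On (c : Aug d) (x : Site d) (o : Option (Dr d)) : Prop :=
  (c.ty x).alw o ∧ ∀ v ∈ (c.ty x).kil o, c.T (x + v) ≤ c.T x

/-- the invariants -/
structure Inv (c : Aug d) : Prop where
  clock : ∀ x, c.T x ≤ c.t
  nbr : ∀ x (f : Dr d), c.T x < c.T (x + dv f) → c.h x ≤ c.h (x + dv f)
  par : ∀ x f, (c.ty x).lm = some f → c.h x ≤ c.h (x - dv f) ∧
    (c.h (x - dv f) = c.h x → c.n (x - dv f) + 1 ≤ c.n x ∧ c.T (x - dv f) ≤ c.T x) ∧
    (c.h (x - dv f) = c.h x + 1 → c.n (x - dv f) + 1 ≤ c.n x)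
  sq : ∀ x f (g : Dr d), (c.ty x).lm = some f → f.1 ≠ g.1 → c.T x < c.T (x + (dv g - dv f)) →
    c.h x ≤ c.h (x + (dv g - dv f)) ∧
    (c.h (x + (dv g - dv f)) = c.h x → c.n (x + (dv g - dv f)) ≤ c.n x)
  two : ∀ x f' f, c.ty x = M2 f' f → c.h x ≤ c.h (x - dv f - dv f') ∧
    (c.h (x - dv f - dv f') = c.h x → c.n (x - dv f - dv f') + 2 ≤ c.n x)
  one : ∀ x f, c.ty x = S1 f → c.h x ≤ c.h (x - dv f) + 1 ∧
    (c.h (x - dv f) + 1 = c.h x → c.n (x - dv f) + 1 ≤ c.n x)
  perp : ∀ x f' f, c.ty x = M2 f' f → f'.1 ≠ f.1

/-- the flag of the best source is on -/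
theorem on_best {c : Aug d} (hc : Inv c) (y : Site d) : On c (src y (best c y)) (best c y) := by
  have hb := best_spec c y
  set o := best c y with ho
  clear_value o
  cases o with
  | none =>
    refine ⟨trivial, ?_⟩
    simp only [src]
    unfold Ty.kil
    cases hl : (c.ty y).lm with
    | none => simp
    | some f =>
      simp only [List.mem_singleton, forall_eq]
      by_contra hT
      push Not at hT
      rw [← sub_eq_add_neg] at hT
      obtain ⟨h1, h2, h3⟩ := hc.par y f hl
      have hv : c.h y + 1 = newHeight c.h y := hb.val
      have hle := le_newHeight_dv' c.h y f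
      have hne : c.h (y - dv f) ≠ c.h y := fun h => by
        have := (h2 h).2
        omega
      have heq : c.h (y - dv f) = c.h y + 1 := by omega
      have hvf : Val c y (some f) := by
        change c.h (y - dv f) = _
        omega
      have h4 := hb.min _ hvf
      have h5 := hb.own rfl f hvf
      have h6 := h3 heq
      simp only [rN] at h4 h5
      omega
  | some g =>
    have hv : c.h (y - dv g) = newHeight c.h y := hb.val
    simp only [src]
    set x := y - dv g with hx
    have hy : y = x + dv g := by rw [hx]; abel
    have hyx : c.h y + 1 ≤ c.h x := by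
      rw [hv]; exact succ_le_newHeight c.h y
    have hnb : ∀ f : Dr d, c.h (y - dv f) ≤ c.h x := fun f => by
      rw [hv]; exact le_newHeight_dv' c.h y f
    constructor
    · -- allowed
      refine ⟨?_, ?_⟩
      · intro hla
        cases ht : c.ty x with
        | S => rw [ht] at hla; simp [Ty.la] at hla
        | S1 f =>
          rw [ht] at hla
          have hf : f = op g := by simpa [Ty.la] using hla
          obtain ⟨h1, h2⟩ := hc.one x f ht
          rw [hf, dv_op, sub_neg_eq_add, ← hy] at h1 h2
          have h3 : c.h y + 1 = c.h x := by omega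
          have h4 := h2 h3
          have hvn : Val c y none := by
            change c.h y + 1 = _
            omega
          have h5 := hb.min _ hvn
          simp only [rN] at h5
          rw [← hx] at h5
          omega
        | M1 f =>
          rw [ht] at hla
          have hf : f = op g := by simpa [Ty.la] using hla
          obtain ⟨h1, -⟩ := hc.par x f (by rw [ht]; rfl)
          rw [hf, dv_op, sub_neg_eq_add, ← hy] at h1
          omega
        | M2 f' f =>
          rw [ht] at hla
          have hf : f = op g := by simpa [Ty.la] using hla
          obtain ⟨h1, -⟩ := hc.par x f (by rw [ht]; rfl)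
          rw [hf, dv_op, sub_neg_eq_add, ← hy] at h1
          omega
      · intro hpr
        cases ht : c.ty x with
        | S => rw [ht] at hpr; simp [Ty.pr] at hpr
        | S1 f => rw [ht] at hpr; simp [Ty.pr] at hpr
        | M1 f => rw [ht] at hpr; simp [Ty.pr] at hpr
        | M2 f' f =>
          rw [ht] at hpr
          have hf : f' = op g := by simpa [Ty.pr] using hpr
          obtain ⟨h1, h2⟩ := hc.two x f' f ht
          have hz : x - dv f - dv f' = y - dv f := by rw [hf, dv_op, hy]; abel
          rw [hz] at h1 h2
          have h3 : c.h (y - dv f) = c.h x := le_antisymm (hnb f) h1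
          have hvf : Val c y (some f) := by
            change c.h (y - dv f) = _
            rw [h3, hv]
          have h4 := hb.min _ hvf
          have h5 := h2 h3
          simp only [rN] at h4
          rw [← hx] at h4
          omega
    · -- no ring since
      have key1 : c.T (x + dv g) ≤ c.T x := by
        by_contra hT
        push Not at hT
        have := hc.nbr x g hT
        rw [← hy] at this
        omega
      unfold Ty.kil
      cases hl : (c.ty x).lm with
      | none => simpa using key1
      | some f =>
        dsimp only
        split_ifs with hfg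
        · simpa using key1
        · intro v hv'
          simp only [List.mem_cons, List.not_mem_nil, or_false] at hv'
          rcases hv' with rfl | rfl
          · exact key1
          · by_contra hT
            push Not at hT
            obtain ⟨h1, h2⟩ := hc.sq x f g hl hfg hT
            have hz : x + (dv g - dv f) = y - dv f := by rw [hy]; abel
            rw [hz] at h1 h2 hT
            have h3 : c.h (y - dv f) = c.h x := le_antisymm (hnb f) h1
            have hvf : Val c y (some f) := by
              change c.h (y - dv f) = _
              rw [h3, hv]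
            have h4 := hb.min _ hvf
            have h5 := h2 h3
            have h6 : rN c y (some f) = rN c y (some g) := by
              simp only [rN] at h4 ⊢
              rw [← hx] at h4 ⊢
              omega
            have h7 := hb.last g f rfl hvf h6
            rw [← hx] at h7
            omega

end Pool.Agent.Lib.MP_67d80e_pr_ub
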