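import Pool.Agent.Lib.MP_67d80e_pr_ub.Gen

/-!
The exponential bound for the heights of the periodic dynamics.
-/

set_option autoImplicit false

open scoped BigOperators
open Filter MeasureTheory
open Pool.Agent.Lib.MP_67d80e_pr

namespace Pool.Agent.Lib.MP_67d80e_pr_ub

variable {d : ℕ}

open Ty

/-- the operator of one ring of periodic clocks, on functions of the augmented configuration -/
noncomputable def PA (d N : ℕ) [NeZero N] : Module.End ℝ (Aug d → ℝ) :=
  (nT d N : ℝ)⁻¹ • ∑ a : Fin d → ZMod N, LinearMap.funLeft ℝ ℝ (ringA (TS N a))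

section
variable (N : ℕ) [NeZero N]

lemma PA_apply (F : Aug d → ℝ) (c : Aug d) :
    PA d N F c = (nT d N : ℝ)⁻¹ * ∑ a : Fin d → ZMod N, F (ringA (TS N a) c) := by
  simp [PA, LinearMap.sum_apply, LinearMap.funLeft_apply, Finset.sum_apply]

lemma PA_pow_h (j : ℕ) (F : Fn d) (c : Aug d) :
    (PA d N ^ j) (fun c => F c.h) c = (PT d N ^ j) F c.h := by
  induction j generalizing F with
  | zero => simp
  | succ j ih =>
    rw [pow_succ, Module.End.mul_apply, pow_succ, Module.End.mul_apply]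
    have h1 : PA d N (fun c => F c.h) = fun c => (PT d N F) c.h := by
      ext c
      rw [PA_apply, PT, avgOp_apply]
      rfl
    rw [h1, ih]

variable {N}

lemma PA_mono (hN : 3 ≤ N) {F G : Aug d → ℝ} (h : ∀ c, Inv c → F c ≤ G c) (c : Aug d)
    (hc : Inv c) : PA d N F c ≤ PA d N G c := by
  rw [PA_apply, PA_apply]
  refine mul_le_mul_of_nonneg_left (Finset.sum_le_sum fun a _ => h _ (hc.ringA (sep_TS hN a))) ?_
  positivity

lemma PA_pow_mono (hN : 3 ≤ N) (j : ℕ) {F G : Aug d → ℝ} (h : ∀ c, Inv c → F c ≤ G c)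
    (c : Aug d) (hc : Inv c) : (PA d N ^ j) F c ≤ (PA d N ^ j) G c := by
  induction j generalizing F G with
  | zero => simpa using h c hc
  | succ j ih =>
    rw [pow_succ, Module.End.mul_apply, Module.End.mul_apply]
    exact ih (PA_mono hN h)

end

/-- the initial augmented configuration -/
def c0 (i0 : Fin d) : Aug d where
  h := tilt i0
  n := 0
  T := 0
  ty _ := S
  t := 0

lemma inv_c0 (i0 : Fin d) : Inv (c0 i0) where
  clock _ := le_rfl
  nbr _ _ h := absurd h (lt_irrefl _)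
  par _ _ h := by simp [c0, Ty.lm] at h
  sq _ _ _ h := by simp [c0, Ty.lm] at h
  two _ _ _ h := by simp [c0] at h
  one _ _ h := by simp [c0] at h
  perp _ _ _ h := by simp [c0] at h

/-- the data of the upper bound: a positive function of the types which is a supersolution -/
structure Super (d : ℕ) (i0 : Fin d) (l r : ℝ) (φ : Ty d → ℝ) : Prop where
  r_nonneg : 0 ≤ r
  pos : ∀ t, 0 < φ t
  le : ∀ t, good t → ∑ o : Option (Dr d),
    (if t.alw o then wt l i0 o * φ (t.succ o) / (r + 1 + kc t o) else 0) ≤ φ t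

lemma kc_le (t : Ty d) (o : Option (Dr d)) : kc t o ≤ 2 := by
  unfold kc Ty.kil
  cases o with
  | none =>
    cases t.lm with
    | none => simp
    | some f => simp
  | some g =>
    cases t.lm with
    | none => simp
    | some f =>
      dsimp only
      split_ifs <;> simp

section
variable {N : ℕ} [NeZero N]

/-- one step -/
lemma PA_Fl_le (hN : 3 ≤ N) (l : ℝ) (i0 : Fin d) (t : Ty d) (o : Option (Dr d)) (y : Site d)
    (c : Aug d) (hc : Inv c) :
    PA d N (Fl l i0 t o y) c ≤ ((1 - (1 + (kc t o : ℝ)) / nT d N : ℝ) • Fl l i0 t o y +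
      ∑ p ∈ okS d, ((nT d N : ℝ)⁻¹ * (if p.1.succ p.2 = t then wt l i0 p.2 else 0)) •
        Fl l i0 p.1 p.2 (src y p.2)) c := by
  classical
  have hT : (0 : ℝ) < nT d N := by exact_mod_cast nT_pos (d := d) N
  have h1 := sum_Fl_le hN l i0 hc t o y
  have h2 := new_le l i0 hc t y
  rw [PA_apply]
  simp only [Pi.add_apply, Pi.smul_apply, smul_eq_mul, Finset.sum_apply]
  have h3 : (1 - (1 + (kc t o : ℝ)) / nT d N) * Fl l i0 t o y c +
      ∑ p ∈ okS d, (nT d N : ℝ)⁻¹ * (if p.1.succ p.2 = t then wt l i0 p.2 else 0) *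
        Fl l i0 p.1 p.2 (src y p.2) c = (nT d N : ℝ)⁻¹ * (((nT d N : ℝ) - (1 + kc t o)) *
        Fl l i0 t o y c + ∑ p ∈ okS d, (if p.1.succ p.2 = t then wt l i0 p.2 else 0) *
        Fl l i0 p.1 p.2 (src y p.2) c) := by
    rw [mul_add, Finset.mul_sum]
    congr 1
    · field_simp
    · refine Finset.sum_congr rfl fun p _ => by ring
  rw [h3]
  refine mul_le_mul_of_nonneg_left ?_ (by positivity)
  linarith

/-- the deterministic recursion -/
noncomputable def mu (N : ℕ) [NeZero N] (l : ℝ) (i0 : Fin d) : ℕ → Ty d × Option (Dr d) → ℝ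
  | 0, _ => 1
  | j + 1, q => (1 - (1 + kc q.1 q.2) / nT d N) * mu N l i0 j q +
      ∑ p ∈ okS d, ((nT d N : ℝ)⁻¹ * (if p.1.succ p.2 = q.1 then wt l i0 p.2 else 0)) *
        mu N l i0 j p

lemma three_le_nT (hN : 3 ≤ N) (i0 : Fin d) : (3 : ℝ) ≤ nT d N := by
  have hd : 1 ≤ d := Nat.one_le_iff_ne_zero.2 (by rintro rfl; exact i0.elim0)
  have h1 : nT d N = N ^ d := by
    unfold nT
    rw [Finset.card_univ, Fintype.card_fun, ZMod.card, Fintype.card_fin]
  rw [h1]
  have h2 : N ^ 1 ≤ N ^ d := Nat.pow_le_pow_right (by omega) hd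
  rw [pow_one] at h2
  have h3 : 3 ≤ N ^ d := hN.trans h2
  exact_mod_cast h3

lemma coef_nonneg (hN : 3 ≤ N) (i0 : Fin d) (t : Ty d) (o : Option (Dr d)) :
    0 ≤ 1 - (1 + (kc t o : ℝ)) / nT d N := by
  have h1 := three_le_nT hN i0
  have h2 : (kc t o : ℝ) ≤ 2 := by exact_mod_cast kc_le t o
  rw [sub_nonneg, div_le_one (by linarith)]
  linarith

lemma mu_nonneg (hN : 3 ≤ N) (l : ℝ) (i0 : Fin d) (j : ℕ) (q : Ty d × Option (Dr d)) :
    0 ≤ mu N l i0 j q := by
  induction j generalizing q with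
  | zero => simp [mu]
  | succ j ih =>
    simp only [mu]
    refine add_nonneg (mul_nonneg (coef_nonneg hN i0 _ _) (ih q)) (Finset.sum_nonneg fun p _ => ?_)
    refine mul_nonneg (mul_nonneg (by positivity) ?_) (ih p)
    split_ifs
    · exact (wt_pos _ _ _).le
    · exact le_rfl

lemma mean_Fl_le (hN : 3 ≤ N) (l : ℝ) (i0 : Fin d) (j : ℕ) (t : Ty d) (o : Option (Dr d))
    (y : Site d) : (PA d N ^ j) (Fl l i0 t o y) (c0 i0) ≤ mu N l i0 j (t, o) := by
  induction j generalizing t o y with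
  | zero =>
    simp only [pow_zero, Module.End.one_apply, mu]
    unfold Fl
    split_ifs
    · unfold W c0 tilt
      simp
    · norm_num
  | succ j ih =>
    rw [pow_succ, Module.End.mul_apply]
    refine (PA_pow_mono hN j (fun c hc => PA_Fl_le hN l i0 t o y c hc) _ (inv_c0 i0)).trans ?_
    rw [map_add, map_smul, map_sum]
    simp only [map_smul, Pi.add_apply, Pi.smul_apply, smul_eq_mul, Finset.sum_apply, mu]
    refine add_le_add (mul_le_mul_of_nonneg_left (ih t o y) (coef_nonneg hN i0 t o))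
      (Finset.sum_le_sum fun p _ => mul_le_mul_of_nonneg_left (ih _ _ _) ?_)
    refine mul_nonneg (by positivity) ?_
    split_ifs
    · exact (wt_pos _ _ _).le
    · exact le_rfl

variable {i0 : Fin d} {l r : ℝ} {φ : Ty d → ℝ}

/-- the value of a flag -/
noncomputable def vf (l : ℝ) (i0 : Fin d) (r : ℝ) (φ : Ty d → ℝ) (p : Ty d × Option (Dr d)) : ℝ :=
  wt l i0 p.2 * φ (p.1.succ p.2) / (r + 1 + kc p.1 p.2)

lemma vf_pos (hφ : Super d i0 l r φ) (p : Ty d × Option (Dr d)) : 0 < vf l i0 r φ p := by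
  unfold vf
  have h1 := hφ.pos (p.1.succ p.2)
  have h2 := wt_pos l i0 p.2
  have h3 := hφ.r_nonneg
  positivity

lemma sum_vf_le (hφ : Super d i0 l r φ) {t : Ty d} (ht : good t) :
    ∑ p ∈ okS d, (if p.1 = t then vf l i0 r φ p else 0) ≤ φ t := by
  classical
  refine le_trans (le_of_eq ?_) (hφ.le t ht)
  unfold okS
  rw [Finset.sum_filter]
  rw [← Finset.univ_product_univ, Finset.sum_product]
  rw [Finset.sum_eq_single t]
  · refine Finset.sum_congr rfl fun o _ => ?_
    dsimp only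
    rw [if_pos rfl]
    by_cases h : t.alw o
    · rw [if_pos ⟨h, ht⟩, if_pos h]
      rfl
    · rw [if_neg (fun h' => h h'.1), if_neg h]
  · intro s _ hs
    refine Finset.sum_eq_zero fun o _ => ?_
    dsimp only
    rw [if_neg hs]
    split_ifs <;> rfl
  · intro h
    exact absurd (Finset.mem_univ _) h

lemma sum_mu_le (hφ : Super d i0 l r φ) (hN : 3 ≤ N) (j : ℕ) :
    ∑ p ∈ okS d, vf l i0 r φ p * mu N l i0 j p ≤
      (1 + r / nT d N) ^ j * ∑ p ∈ okS d, vf l i0 r φ p := by
  have hT : (0 : ℝ) < nT d N := by exact_mod_cast nT_pos (d := d) N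
  induction j with
  | zero => simp [mu]
  | succ j ih =>
    have h1 : ∑ q ∈ okS d, vf l i0 r φ q * mu N l i0 (j + 1) q =
        ∑ p ∈ okS d, (vf l i0 r φ p * (1 - (1 + kc p.1 p.2) / nT d N) +
          (nT d N : ℝ)⁻¹ * wt l i0 p.2 *
            ∑ q ∈ okS d, (if q.1 = p.1.succ p.2 then vf l i0 r φ q else 0)) * mu N l i0 j p := by
      simp only [mu, mul_add, Finset.sum_add_distrib, add_mul, Finset.mul_sum, Finset.sum_mul]
      congr 1
      · exact Finset.sum_congr rfl fun p _ => by ring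
      · rw [Finset.sum_comm]
        refine Finset.sum_congr rfl fun p _ => Finset.sum_congr rfl fun q _ => ?_
        by_cases h : p.1.succ p.2 = q.1
        · rw [if_pos h, if_pos h.symm]
          ring
        · rw [if_neg h, if_neg (fun h' => h h'.symm)]
          ring
    rw [h1]
    have h2 : ∀ p ∈ okS d, (vf l i0 r φ p * (1 - (1 + kc p.1 p.2) / nT d N) +
          (nT d N : ℝ)⁻¹ * wt l i0 p.2 *
            ∑ q ∈ okS d, (if q.1 = p.1.succ p.2 then vf l i0 r φ q else 0)) * mu N l i0 j p ≤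
        (1 + r / nT d N) * (vf l i0 r φ p * mu N l i0 j p) := by
      intro p _
      have h3 := sum_vf_le hφ (good_succ p.1 p.2)
      have h4 := mu_nonneg hN l i0 j p
      have h5 : vf l i0 r φ p * (1 - (1 + kc p.1 p.2) / nT d N) +
          (nT d N : ℝ)⁻¹ * wt l i0 p.2 *
            ∑ q ∈ okS d, (if q.1 = p.1.succ p.2 then vf l i0 r φ q else 0) ≤
          (1 + r / nT d N) * vf l i0 r φ p := by
        have h6 : (nT d N : ℝ)⁻¹ * wt l i0 p.2 *
            ∑ q ∈ okS d, (if q.1 = p.1.succ p.2 then vf l i0 r φ q else 0) ≤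
            (nT d N : ℝ)⁻¹ * wt l i0 p.2 * φ (p.1.succ p.2) :=
          mul_le_mul_of_nonneg_left h3 (mul_nonneg (by positivity) (wt_pos _ _ _).le)
        refine (add_le_add le_rfl h6).trans (le_of_eq ?_)
        have h7 : (0 : ℝ) < r + 1 + kc p.1 p.2 := by
          have := hφ.r_nonneg
          positivity
        have h8 : wt l i0 p.2 * φ (p.1.succ p.2) = vf l i0 r φ p * (r + 1 + kc p.1 p.2) := by
          unfold vf
          field_simp
        rw [mul_assoc, h8]
        field_simp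
        ring
      calc _ ≤ (1 + r / nT d N) * vf l i0 r φ p * mu N l i0 j p :=
            mul_le_mul_of_nonneg_right h5 h4
        _ = _ := by ring
    refine (Finset.sum_le_sum h2).trans ?_
    rw [← Finset.mul_sum, pow_succ, mul_comm ((1 + r / nT d N) ^ j), mul_assoc]
    refine mul_le_mul_of_nonneg_left ih ?_
    have := hφ.r_nonneg
    positivity

/-- the constant of the exponential bound -/
noncomputable def cst (l : ℝ) (i0 : Fin d) (r : ℝ) (φ : Ty d → ℝ) : ℝ :=
  (∑ p ∈ okS d, wt l i0 p.2 / vf l i0 r φ p) * ∑ p ∈ okS d, vf l i0 r φ p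

lemma mean_W'_le (hφ : Super d i0 l r φ) (hN : 3 ≤ N) (j : ℕ) (y : Site d) :
    (PA d N ^ j) (W' l i0 y) (c0 i0) ≤ cst l i0 r φ * (1 + r / nT d N) ^ j := by
  have h1 : ∀ c : Aug d, Inv c → W' l i0 y c ≤
      (∑ p ∈ okS d, wt l i0 p.2 • Fl l i0 p.1 p.2 (src y p.2)) c := fun c hc => by
    simp only [Finset.sum_apply, Pi.smul_apply, smul_eq_mul]
    exact W'_le l i0 hc y
  refine (PA_pow_mono hN j h1 _ (inv_c0 i0)).trans ?_
  rw [map_sum]
  simp only [map_smul, Finset.sum_apply, Pi.smul_apply, smul_eq_mul]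
  have h2 := sum_mu_le hφ hN j
  have h3 : ∀ p ∈ okS d, wt l i0 p.2 * (PA d N ^ j) (Fl l i0 p.1 p.2 (src y p.2)) (c0 i0) ≤
      wt l i0 p.2 / vf l i0 r φ p * ((1 + r / nT d N) ^ j * ∑ p ∈ okS d, vf l i0 r φ p) := by
    intro p hp
    have h4 := vf_pos hφ p
    have h5 := mean_Fl_le hN l i0 j p.1 p.2 (src y p.2)
    have h6 : vf l i0 r φ p * mu N l i0 j p ≤ ∑ p ∈ okS d, vf l i0 r φ p * mu N l i0 j p :=
      Finset.single_le_sum (f := fun p => vf l i0 r φ p * mu N l i0 j p)
        (fun q _ => mul_nonneg (vf_pos hφ q).le (mu_nonneg hN l i0 j q)) hp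
    have h7 : mu N l i0 j p ≤ ((1 + r / nT d N) ^ j * ∑ p ∈ okS d, vf l i0 r φ p) /
        vf l i0 r φ p := by
      rw [le_div_iff₀ h4, mul_comm]
      exact h6.trans h2
    calc _ ≤ wt l i0 p.2 * (((1 + r / nT d N) ^ j * ∑ p ∈ okS d, vf l i0 r φ p) /
        vf l i0 r φ p) := mul_le_mul_of_nonneg_left (h5.trans h7) (wt_pos _ _ _).le
      _ = _ := by ring
  refine (Finset.sum_le_sum h3).trans (le_of_eq ?_)
  rw [← Finset.sum_mul]
  unfold cst
  ring

/-- the exponential bound -/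
theorem expF_le (hφ : Super d i0 l r φ) (hl : 0 ≤ l) (hN : 3 ≤ N) (j : ℕ) (y : Site d) :
    (PT d N ^ j) (expF l y) (tilt i0) ≤
      cst l i0 r φ * (1 + r / nT d N) ^ j * Real.exp (l * y i0) := by
  have h1 := mean_W'_le hφ hN j y
  have h2 : (PA d N ^ j) (fun c => (Real.exp (-(l * y i0)) • expF l y : Fn d) c.h) (c0 i0) ≤
      (PA d N ^ j) (W' l i0 y) (c0 i0) := by
    refine PA_pow_mono hN j (fun c _ => ?_) _ (inv_c0 i0)
    simp only [Pi.smul_apply, smul_eq_mul]
    unfold expF W'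
    rw [← Real.exp_add]
    refine Real.exp_le_exp.2 ?_
    have h3 : (c.h y : ℝ) ≤ newHeight c.h y := by exact_mod_cast le_newHeight c.h y
    nlinarith
  rw [PA_pow_h, map_smul, Pi.smul_apply, smul_eq_mul] at h2
  have h3 : (c0 i0).h = tilt i0 := rfl
  rw [h3] at h2
  have h4 := h2.trans h1
  have h5 := Real.exp_pos (l * y i0)
  have h6 : Real.exp (-(l * y i0)) * Real.exp (l * y i0) = 1 := by
    rw [← Real.exp_add]; simp
  calc (PT d N ^ j) (expF l y) (tilt i0) = Real.exp (-(l * y i0)) *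
        (PT d N ^ j) (expF l y) (tilt i0) * Real.exp (l * y i0) := by
        rw [mul_right_comm, h6, one_mul]
    _ ≤ _ := mul_le_mul_of_nonneg_right h4 h5.le

lemma cst_pos (hφ : Super d i0 l r φ) : 0 < cst l i0 r φ := by
  have hne : (okS d).Nonempty := ⟨(S, none), mem_okS.2 ⟨trivial, fun _ _ h => by simp at h⟩⟩
  unfold cst
  refine mul_pos (Finset.sum_pos (fun p _ => ?_) hne) (Finset.sum_pos (fun p _ => vf_pos hφ p) hne)
  exact div_pos (wt_pos _ _ _) (vf_pos hφ p)

end

end Pool.Agent.Lib.MP_67d80e_pr_ub
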