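import Pool.Agent.Lib.MP_67d80e_pr_ub.Grow

/-!
Supersolutions which only depend on the classes of the directions: twelve numbers and twelve
inequalities give the upper bound in every dimension.
-/

set_option autoImplicit false

open scoped BigOperators
open Filter MeasureTheory
open Pool.Agent.Lib.MP_67d80e_pr

namespace Pool.Agent.Lib.MP_67d80e_pr_ub

variable {d : ℕ}

open Ty

/-- twelve numbers: the potentials of the types `S`, `S1 f`, `M1 f`, `M2 f' f`, where every
direction is `U` (weight `q`), `D` (weight `q⁻¹`) or `L` (lateral, weight `1`) -/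
structure Pot where
  s0 : ℝ
  s1U : ℝ
  s1D : ℝ
  s1L : ℝ
  m1U : ℝ
  m1D : ℝ
  m1L : ℝ
  mUL : ℝ
  mDL : ℝ
  mLU : ℝ
  mLD : ℝ
  mLL : ℝ

/-- the value of a class function at a direction -/
def cv (i0 : Fin d) (u w x : ℝ) (f : Dr d) : ℝ := if f.1 = i0 then (if f.2 then w else u) else x

/-- the potential -/
def phi (i0 : Fin d) (v : Pot) : Ty d → ℝ
  | S => v.s0
  | S1 f => cv i0 v.s1U v.s1D v.s1L f
  | M1 f => cv i0 v.m1U v.m1D v.m1L f
  | M2 f' f => cv i0 (cv i0 v.mLU v.mLU v.mUL f) (cv i0 v.mLU v.mLU v.mDL f)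
      (cv i0 v.mLU v.mLD v.mLL f) f'

/-- the inequalities -/
structure Pot.Ok (v : Pot) (D q r : ℝ) : Prop where
  r_nonneg : 0 ≤ r
  q_pos : 0 < q
  p1 : 0 < v.s0
  p2 : 0 < v.s1U
  p3 : 0 < v.s1D
  p4 : 0 < v.s1L
  p5 : 0 < v.m1U
  p6 : 0 < v.m1D
  p7 : 0 < v.m1L
  p8 : 0 < v.mUL
  p9 : 0 < v.mDL
  p10 : 0 < v.mLU
  p11 : 0 < v.mLD
  p12 : 0 < v.mLL
  c1 : q * v.s0 / (r + 1) + (q * v.m1U + q⁻¹ * v.m1D + 2 * (D - 1) * v.m1L) / (r + 2) ≤ v.s0
  c2U : q * v.s0 / (r + 1) + (q * v.m1U + 2 * (D - 1) * v.m1L) / (r + 2) ≤ v.s1U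
  c2D : q * v.s0 / (r + 1) + (q⁻¹ * v.m1D + 2 * (D - 1) * v.m1L) / (r + 2) ≤ v.s1D
  c2L : q * v.s0 / (r + 1) + (q * v.m1U + q⁻¹ * v.m1D + (2 * (D - 1) - 1) * v.m1L) / (r + 2) ≤ v.s1L
  c3U : q * v.s1U / (r + 2) + q * v.m1U / (r + 2) + 2 * (D - 1) * v.mUL / (r + 3) ≤ v.m1U
  c3D : q * v.s1D / (r + 2) + q⁻¹ * v.m1D / (r + 2) + 2 * (D - 1) * v.mDL / (r + 3) ≤ v.m1D
  c3L : q * v.s1L / (r + 2) + v.m1L / (r + 2) +
    (q * v.mLU + q⁻¹ * v.mLD + 2 * (D - 2) * v.mLL) / (r + 3) ≤ v.m1L
  c4UL : q * v.s1L / (r + 2) + v.m1L / (r + 2) +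
    (q * v.mLU + 2 * (D - 2) * v.mLL) / (r + 3) ≤ v.mUL
  c4DL : q * v.s1L / (r + 2) + v.m1L / (r + 2) +
    (q⁻¹ * v.mLD + 2 * (D - 2) * v.mLL) / (r + 3) ≤ v.mDL
  c4LU : q * v.s1U / (r + 2) + q * v.m1U / (r + 2) + (2 * (D - 1) - 1) * v.mUL / (r + 3) ≤ v.mLU
  c4LD : q * v.s1D / (r + 2) + q⁻¹ * v.m1D / (r + 2) +
    (2 * (D - 1) - 1) * v.mDL / (r + 3) ≤ v.mLD
  c4LL : q * v.s1L / (r + 2) + v.m1L / (r + 2) +
    (q * v.mLU + q⁻¹ * v.mLD + (2 * (D - 2) - 1) * v.mLL) / (r + 3) ≤ v.mLL

lemma sum_fin_eq (H : Fin d → ℝ) (X : Finset (Fin d)) (E : ℝ) (h : ∀ i, i ∉ X → H i = E) :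
    ∑ i, H i = ∑ i ∈ X, H i + ((d : ℝ) - X.card) * E := by
  classical
  rw [← Finset.sum_add_sum_compl X H]
  congr 1
  rw [Finset.sum_congr rfl (fun i hi => h i (Finset.mem_compl.1 hi)), Finset.sum_const,
    Finset.card_compl, Fintype.card_fin, nsmul_eq_mul, Nat.cast_sub]
  simpa using Finset.card_le_univ X

lemma sum_dr (F : Dr d → ℝ) : ∑ f, F f = ∑ i, (F (i, true) + F (i, false)) := by
  rw [← Finset.univ_product_univ, Finset.sum_product]
  refine Finset.sum_congr rfl fun i _ => ?_
  simp

lemma wt_some (l : ℝ) (i0 : Fin d) (f : Dr d) :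
    wt l i0 (some f) = cv i0 (Real.exp l) (Real.exp l)⁻¹ 1 f := by
  rcases f with ⟨i, b⟩
  unfold wt cv
  dsimp only
  by_cases h : i = i0
  · subst h
    rw [if_pos rfl]
    have h1 := dv_apply_same ((i, b) : Dr d)
    dsimp only at h1
    rw [h1]
    cases b
    · simp
    · simp [Real.exp_neg]
  · rw [if_neg h]
    have h1 := dv_apply_ne (f := ((i, b) : Dr d)) (i := i0) (fun h' => h h'.symm)
    rw [h1]
    simp

/-- the summand -/
noncomputable def sm (l : ℝ) (i0 : Fin d) (r : ℝ) (φ : Ty d → ℝ) (t : Ty d)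
    (o : Option (Dr d)) : ℝ :=
  if t.alw o then wt l i0 o * φ (t.succ o) / (r + 1 + kc t o) else 0

lemma sum_sm (l : ℝ) (i0 : Fin d) (r : ℝ) (φ : Ty d → ℝ) (t : Ty d) :
    ∑ o, sm l i0 r φ t o = sm l i0 r φ t none +
      ∑ i, (sm l i0 r φ t (some (i, true)) + sm l i0 r φ t (some (i, false))) := by
  rw [Fintype.sum_option, sum_dr (fun f => sm l i0 r φ t (some f))]

lemma op_eq (i : Fin d) (b : Bool) : op (i, b) = (i, !b) := rfl

theorem super_of_ok {v : Pot} {l r : ℝ} (i0 : Fin d) (h : v.Ok d (Real.exp l) r) :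
    Super d i0 l r (phi i0 v) := by
  classical
  have hr := h.r_nonneg
  have hr1 : r + 1 + 1 = r + 2 := by ring
  have hr2 : r + 1 + 2 = r + 3 := by ring
  have hd1 : ((({i0} : Finset (Fin d)).card : ℕ) : ℝ) = 1 := by simp
  set q := Real.exp l with hq
  have hposcv : ∀ (a b c : ℝ) (f : Dr d), 0 < a → 0 < b → 0 < c → 0 < cv i0 a b c f := by
    intro a b c f ha hb hc
    unfold cv
    split_ifs <;> assumption
  refine ⟨hr, ?_, ?_⟩
  · intro t
    cases t with
    | S => exact h.p1
    | S1 f => exact hposcv _ _ _ _ h.p2 h.p3 h.p4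
    | M1 f => exact hposcv _ _ _ _ h.p5 h.p6 h.p7
    | M2 f' f =>
      exact hposcv _ _ _ _ (hposcv _ _ _ _ h.p10 h.p10 h.p8)
        (hposcv _ _ _ _ h.p10 h.p10 h.p9) (hposcv _ _ _ _ h.p10 h.p11 h.p12)
  · intro t ht
    change ∑ o, sm l i0 r (phi i0 v) t o ≤ _
    rw [sum_sm]
    cases t with
    | S =>
      have hS : ∀ f : Dr d, sm l i0 r (phi i0 v) S (some f) =
          cv i0 q q⁻¹ 1 f * cv i0 v.m1U v.m1D v.m1L f / (r + 2) := by
        intro f
        unfold sm
        rw [if_pos (by simp [Ty.alw, Ty.la, Ty.pr]), wt_some]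
        simp only [kc, Ty.kil, Ty.lm, Ty.succ, Ty.move, phi, List.length_singleton, Nat.cast_one]
        rw [hr1]
      have hN : sm l i0 r (phi i0 v) S none = q * v.s0 / (r + 1) := by
        unfold sm
        rw [if_pos (show Ty.alw _ none from trivial)]
        simp [kc, Ty.kil, Ty.lm, Ty.succ, Ty.stay, phi, wt, hq]
      rw [hN]
      simp_rw [hS]
      rw [sum_fin_eq _ {i0} (2 * v.m1L / (r + 2)) (fun i hi => by
        rw [Finset.mem_singleton] at hi
        simp only [cv, if_neg hi]
        ring), Finset.sum_singleton, hd1]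
      refine le_trans (le_of_eq ?_) h.c1
      simp only [cv, if_true]
      simp only [Bool.false_eq_true, if_false]
      ring
    | S1 f =>
      have hS : ∀ g : Dr d, sm l i0 r (phi i0 v) (S1 f) (some g) =
          if f = op g then 0 else
          cv i0 q q⁻¹ 1 g * cv i0 v.m1U v.m1D v.m1L g / (r + 2) := by
        intro g
        unfold sm
        by_cases hfg : f = op g
        · rw [if_pos hfg, if_neg]
          simp [Ty.alw, Ty.la, hfg]
        · rw [if_neg hfg, if_pos (by simp [Ty.alw, Ty.la, Ty.pr, hfg]), wt_some]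
          simp only [kc, Ty.kil, Ty.lm, Ty.succ, Ty.move, phi, List.length_singleton, Nat.cast_one]
          rw [hr1]
      have hN : sm l i0 r (phi i0 v) (S1 f) none = q * v.s0 / (r + 1) := by
        unfold sm
        rw [if_pos (show Ty.alw _ none from trivial)]
        simp [kc, Ty.kil, Ty.lm, Ty.succ, Ty.stay, phi, wt, hq]
      rw [hN]
      simp_rw [hS]
      obtain ⟨k, b⟩ := f
      by_cases hk : k = i0
      · subst hk
        rw [sum_fin_eq _ {k} (2 * v.m1L / (r + 2)) (fun i hi => by
          rw [Finset.mem_singleton] at hi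
          have hi' : k ≠ i := fun h => hi h.symm
          simp only [cv, if_neg hi, op_eq, Prod.mk.injEq, hi', false_and, if_false]
          ring), Finset.sum_singleton, hd1]
        cases b
        · refine le_trans (le_of_eq ?_) (h.c2U.trans (le_of_eq (by simp [phi, cv])))
          simp [cv, op_eq]
          ring
        · refine le_trans (le_of_eq ?_) (h.c2D.trans (le_of_eq (by simp [phi, cv])))
          simp [cv, op_eq]
          ring
      · have hcard : ((({i0, k} : Finset (Fin d)).card : ℕ) : ℝ) = 2 := by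
          rw [Finset.card_pair (fun h => hk h.symm)]; norm_num
        rw [sum_fin_eq _ {i0, k} (2 * v.m1L / (r + 2)) (fun i hi => by
          simp only [Finset.mem_insert, Finset.mem_singleton, not_or] at hi
          have hi' : k ≠ i := fun h => hi.2 h.symm
          simp only [cv, if_neg hi.1, op_eq, Prod.mk.injEq, hi', false_and, if_false]
          ring), Finset.sum_pair (fun h => hk h.symm), hcard]
        refine le_trans (le_of_eq ?_) (h.c2L.trans (le_of_eq ?_))
        · cases b <;> simp [cv, op_eq, hk] <;> ring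
        · simp [phi, cv, hk]
    | M1 f =>
      have hS : ∀ g : Dr d, sm l i0 r (phi i0 v) (M1 f) (some g) =
          if f = op g then 0 else if f.1 = g.1 then
          cv i0 q q⁻¹ 1 g * cv i0 v.m1U v.m1D v.m1L g / (r + 2) else
          cv i0 q q⁻¹ 1 g * phi i0 v (M2 f g) / (r + 3) := by
        intro g
        unfold sm
        by_cases hfg : f = op g
        · rw [if_pos hfg, if_neg]
          simp [Ty.alw, Ty.la, hfg]
        · rw [if_neg hfg, if_pos (by simp [Ty.alw, Ty.la, Ty.pr, hfg]), wt_some]
          by_cases h1 : f.1 = g.1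
          · rw [if_pos h1]
            simp only [kc, Ty.kil, Ty.lm, Ty.succ, Ty.move, if_pos h1, List.length_singleton,
              Nat.cast_one]
            rw [hr1]
            rfl
          · rw [if_neg h1]
            simp only [kc, Ty.kil, Ty.lm, Ty.succ, Ty.move, if_neg h1, List.length_cons,
              List.length_nil]
            push_cast
            rw [hr2]
      have hN : sm l i0 r (phi i0 v) (M1 f) none = q * phi i0 v (S1 f) / (r + 2) := by
        unfold sm
        rw [if_pos (show Ty.alw _ none from trivial)]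
        simp only [kc, Ty.kil, Ty.lm, Ty.succ, Ty.stay, wt, List.length_singleton, Nat.cast_one]
        rw [hr1]
      rw [hN]
      simp_rw [hS]
      obtain ⟨k, b⟩ := f
      by_cases hk : k = i0
      · subst hk
        cases b
        · rw [sum_fin_eq _ {k} (2 * v.mUL / (r + 3)) (fun i hi => by
            rw [Finset.mem_singleton] at hi
            have hi' : k ≠ i := fun h => hi h.symm
            simp only [cv, phi, if_neg hi, op_eq, Prod.mk.injEq, hi', false_and, if_false]
            simp
            ring), Finset.sum_singleton, hd1]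
          refine le_trans (le_of_eq ?_) (h.c3U.trans (le_of_eq (by simp [phi, cv])))
          simp [cv, phi, op_eq]
          ring
        · rw [sum_fin_eq _ {k} (2 * v.mDL / (r + 3)) (fun i hi => by
            rw [Finset.mem_singleton] at hi
            have hi' : k ≠ i := fun h => hi h.symm
            simp only [cv, phi, if_neg hi, op_eq, Prod.mk.injEq, hi', false_and, if_false]
            simp
            ring), Finset.sum_singleton, hd1]
          refine le_trans (le_of_eq ?_) (h.c3D.trans (le_of_eq (by simp [phi, cv])))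
          simp [cv, phi, op_eq]
          ring
      · have hcard : ((({i0, k} : Finset (Fin d)).card : ℕ) : ℝ) = 2 := by
          rw [Finset.card_pair (fun h => hk h.symm)]; norm_num
        rw [sum_fin_eq _ {i0, k} (2 * v.mLL / (r + 3)) (fun i hi => by
          simp only [Finset.mem_insert, Finset.mem_singleton, not_or] at hi
          have hi' : k ≠ i := fun h => hi.2 h.symm
          simp only [cv, phi, if_neg hi.1, if_neg hk, op_eq, Prod.mk.injEq, hi', false_and, if_false]
          ring), Finset.sum_pair (fun h => hk h.symm), hcard]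
        refine le_trans (le_of_eq ?_) (h.c3L.trans (le_of_eq ?_))
        · cases b <;> simp [cv, phi, op_eq, hk] <;> ring
        · simp [phi, cv, hk]
    | M2 f' f =>
      have hperp := ht f' f rfl
      have hS : ∀ g : Dr d, sm l i0 r (phi i0 v) (M2 f' f) (some g) =
          if f = op g ∨ f' = op g then 0 else if f.1 = g.1 then
          cv i0 q q⁻¹ 1 g * cv i0 v.m1U v.m1D v.m1L g / (r + 2) else
          cv i0 q q⁻¹ 1 g * phi i0 v (M2 f g) / (r + 3) := by
        intro g
        unfold sm
        by_cases hfg : f = op g ∨ f' = op g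
        · rw [if_pos hfg, if_neg]
          rcases hfg with hfg | hfg <;> simp [Ty.alw, Ty.la, Ty.pr, hfg]
        · rw [if_neg hfg, if_pos (by
            simp only [not_or] at hfg
            simp [Ty.alw, Ty.la, Ty.pr, hfg.1, hfg.2]), wt_some]
          by_cases h1 : f.1 = g.1
          · rw [if_pos h1]
            simp only [kc, Ty.kil, Ty.lm, Ty.succ, Ty.move, if_pos h1, List.length_singleton,
              Nat.cast_one]
            rw [hr1]
            rfl
          · rw [if_neg h1]
            simp only [kc, Ty.kil, Ty.lm, Ty.succ, Ty.move, if_neg h1, List.length_cons,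
              List.length_nil]
            push_cast
            rw [hr2]
      have hN : sm l i0 r (phi i0 v) (M2 f' f) none = q * phi i0 v (S1 f) / (r + 2) := by
        unfold sm
        rw [if_pos (show Ty.alw _ none from trivial)]
        simp only [kc, Ty.kil, Ty.lm, Ty.succ, Ty.stay, wt, List.length_singleton, Nat.cast_one]
        rw [hr1]
      rw [hN]
      simp_rw [hS]
      obtain ⟨k, b⟩ := f
      obtain ⟨k', b'⟩ := f'
      have hkk : k' ≠ k := hperp
      by_cases hk : k = i0
      · subst hk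
        have hcard : ((({k, k'} : Finset (Fin d)).card : ℕ) : ℝ) = 2 := by
          rw [Finset.card_pair (fun h => hkk h.symm)]; norm_num
        cases b
        · rw [sum_fin_eq _ {k, k'} (2 * v.mUL / (r + 3)) (fun i hi => by
            simp only [Finset.mem_insert, Finset.mem_singleton, not_or] at hi
            have hi1 : k ≠ i := fun h => hi.1 h.symm
            have hi2 : k' ≠ i := fun h => hi.2 h.symm
            simp [cv, phi, hi.1, op_eq, Prod.mk.injEq, hi1, hi2]
            ring), Finset.sum_pair (fun h => hkk h.symm), hcard]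
          refine le_trans (le_of_eq ?_) (h.c4LU.trans (le_of_eq ?_))
          · have hkk' : k ≠ k' := fun h => hkk h.symm
            cases b' <;> simp [cv, phi, op_eq, hkk, hkk'] <;> ring
          · simp [phi, cv, hkk]
        · rw [sum_fin_eq _ {k, k'} (2 * v.mDL / (r + 3)) (fun i hi => by
            simp only [Finset.mem_insert, Finset.mem_singleton, not_or] at hi
            have hi1 : k ≠ i := fun h => hi.1 h.symm
            have hi2 : k' ≠ i := fun h => hi.2 h.symm
            simp [cv, phi, hi.1, op_eq, Prod.mk.injEq, hi1, hi2]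
            ring), Finset.sum_pair (fun h => hkk h.symm), hcard]
          refine le_trans (le_of_eq ?_) (h.c4LD.trans (le_of_eq ?_))
          · have hkk' : k ≠ k' := fun h => hkk h.symm
            cases b' <;> simp [cv, phi, op_eq, hkk, hkk'] <;> ring
          · simp [phi, cv, hkk]
      · have hk' : i0 ≠ k := fun h => hk h.symm
        by_cases hk2 : k' = i0
        · subst hk2
          have hcard : ((({k', k} : Finset (Fin d)).card : ℕ) : ℝ) = 2 := by
            rw [Finset.card_pair hkk]; norm_num
          rw [sum_fin_eq _ {k', k} (2 * v.mLL / (r + 3)) (fun i hi => by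
            simp only [Finset.mem_insert, Finset.mem_singleton, not_or] at hi
            have hi1 : k' ≠ i := fun h => hi.1 h.symm
            have hi2 : k ≠ i := fun h => hi.2 h.symm
            simp [cv, phi, hi.1, hk, op_eq, Prod.mk.injEq, hi1, hi2]
            ring), Finset.sum_pair hkk, hcard]
          cases b'
          · refine le_trans (le_of_eq ?_) (h.c4UL.trans (le_of_eq ?_))
            · cases b <;> simp [cv, phi, op_eq, hk, hk'] <;> ring
            · simp [phi, cv, hk]
          · refine le_trans (le_of_eq ?_) (h.c4DL.trans (le_of_eq ?_))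
            · cases b <;> simp [cv, phi, op_eq, hk, hk'] <;> ring
            · simp [phi, cv, hk]
        · have hk2' : i0 ≠ k' := fun h => hk2 h.symm
          have hkk' : k ≠ k' := fun h => hkk h.symm
          have hcard : ((({i0, k, k'} : Finset (Fin d)).card : ℕ) : ℝ) = 3 := by
            rw [Finset.card_insert_of_notMem (by simp [hk', hk2']), Finset.card_pair hkk']
            norm_num
          rw [sum_fin_eq _ {i0, k, k'} (2 * v.mLL / (r + 3)) (fun i hi => by
            simp only [Finset.mem_insert, Finset.mem_singleton, not_or] at hi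
            have hi1 : k ≠ i := fun h => hi.2.1 h.symm
            have hi2 : k' ≠ i := fun h => hi.2.2 h.symm
            simp [cv, phi, hi.1, hk, op_eq, Prod.mk.injEq, hi1, hi2]
            ring), Finset.sum_insert (by simp [hk', hk2']), Finset.sum_pair hkk', hcard]
          refine le_trans (le_of_eq ?_) (h.c4LL.trans (le_of_eq ?_))
          · cases b <;> cases b' <;> simp [cv, phi, op_eq, hk, hk2, hkk, hkk'] <;> ring
          · simp [phi, cv, hk, hk2]

/-- the growth inequality from twelve numbers -/
theorem ces_growth_pot {v : Pot} {q r : ℝ} (hq : 1 < q) (h : v.Ok d q r) (i0 : Fin d)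
    (R I : ℕ) (x : Site d) : ∃ C : ℝ, ∀ N : ℕ, 2 * R ≤ N → 2 ≤ N →
    cesN i0 N ((PB d R ^ I) (hgt x) - hgt x) ≤
      r / Real.log q * (I / (box d R).card) + C / (N + 1) := by
  have hl : 0 < Real.log q := Real.log_pos hq
  have h' : v.Ok d (Real.exp (Real.log q)) r := by rwa [Real.exp_log (by linarith)]
  exact ces_growth' (super_of_ok i0 h') hl R I x

end Pool.Agent.Lib.MP_67d80e_pr_ub
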