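import Pool.Agent.Lib.MP_67d80e_pr_ub.Pres

/-!
The generator inequality for the flags of the canonical paths.
-/

set_option autoImplicit false

open scoped BigOperators
open Filter MeasureTheory
open Pool.Agent.Lib.MP_67d80e_pr

namespace Pool.Agent.Lib.MP_67d80e_pr_ub

variable {d : ℕ}

open Ty

/-- the weight of an event -/
noncomputable def wt (l : ℝ) (i0 : Fin d) : Option (Dr d) → ℝ
  | none => Real.exp l
  | some f => Real.exp (-(l * dv f i0))

lemma wt_pos (l : ℝ) (i0 : Fin d) (o : Option (Dr d)) : 0 < wt l i0 o := by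
  cases o <;> exact Real.exp_pos _

/-- the weight of a particle -/
noncomputable def W (l : ℝ) (i0 : Fin d) (y : Site d) (c : Aug d) : ℝ :=
  Real.exp (l * (c.h y - y i0))

/-- the weight of the particle after a ring at its site -/
noncomputable def W' (l : ℝ) (i0 : Fin d) (y : Site d) (c : Aug d) : ℝ :=
  Real.exp (l * (newHeight c.h y - y i0))

open Classical in
/-- the weight of a flag -/
noncomputable def Fl (l : ℝ) (i0 : Fin d) (t : Ty d) (o : Option (Dr d)) (y : Site d)
    (c : Aug d) : ℝ :=
  if c.ty y = t ∧ On c y o then W l i0 y c else 0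

lemma Fl_nonneg (l : ℝ) (i0 : Fin d) (t : Ty d) (o : Option (Dr d)) (y : Site d) (c : Aug d) :
    0 ≤ Fl l i0 t o y c := by
  unfold Fl
  split_ifs
  · exact (Real.exp_pos _).le
  · exact le_rfl

/-- the type may occur -/
def good (t : Ty d) : Prop := ∀ f' f, t = M2 f' f → f'.1 ≠ f.1

lemma good_succ (t : Ty d) (o : Option (Dr d)) : good (succ t o) :=
  fun _ _ h => (succ_eq_M2 h).2.2

/-- the number of the sites, apart from the site itself, whose ring switches the flag off -/
def kc (t : Ty d) (o : Option (Dr d)) : ℕ := (t.kil o).length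

lemma kil_spec (t : Ty d) (o : Option (Dr d)) : (t.kil o).Nodup ∧
    (∀ v ∈ t.kil o, v ≠ 0 ∧ ∀ i, |v i| ≤ 2) ∧
    (∀ v ∈ t.kil o, ∀ w ∈ t.kil o, ∀ i, |(v - w) i| ≤ 2) := by
  have h1 : ∀ f : Dr d, dv f ≠ 0 ∧ ∀ i, |dv f i| ≤ 2 := fun f =>
    ⟨dv_ne_zero f, fun i => (dv_abs_le f i).trans (by norm_num)⟩
  have h2 : ∀ f : Dr d, -dv f ≠ 0 ∧ ∀ i, |(-dv f) i| ≤ 2 := fun f => by
    have := h1 (op f)
    rwa [dv_op] at this
  unfold Ty.kil
  cases o with
  | none =>
    cases hl : t.lm with
    | none => simp
    | some f =>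
      refine ⟨by simp, ?_, ?_⟩
      · simpa using h2 f
      · simp
  | some g =>
    cases hl : t.lm with
    | none =>
      refine ⟨by simp, ?_, ?_⟩
      · simpa using h1 g
      · simp
    | some f =>
      dsimp only
      split_ifs with hfg
      · refine ⟨by simp, ?_, ?_⟩
        · simpa using h1 g
        · simp
      · have h3 : dv g ≠ dv g - dv f := by
          intro h
          have : dv f = 0 := by
            have := congrArg (fun z => dv g - z) h
            simpa using this.symm
          exact dv_ne_zero f this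
        refine ⟨by simpa using h3, ?_, ?_⟩
        · intro v hv
          simp only [List.mem_cons, List.not_mem_nil, or_false] at hv
          rcases hv with rfl | rfl
          · exact h1 g
          · exact ⟨sub_dv_ne_zero hfg, sub_dv_abs_le f g⟩
        · intro v hv w hw i
          simp only [List.mem_cons, List.not_mem_nil, or_false] at hv hw
          have h4 := (h1 f).2 i
          rcases hv with rfl | rfl <;> rcases hw with rfl | rfl
          · simp
          · have : (dv g - (dv g - dv f)) i = dv f i := by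
              rw [sub_sub_cancel]
            rw [this]; exact h4
          · have : (dv g - dv f - dv g) i = -(dv f i) := by
              simp only [Pi.sub_apply]; ring
            rw [this, abs_neg]; exact h4
          · simp

lemma cls_ne {N : ℕ} (hN : 3 ≤ N) {x y : Site d} (h : x ≠ y) (h2 : ∀ i, |(x - y) i| ≤ 2) :
    cls N x ≠ cls N y := by
  intro hc
  apply h
  ext i
  have h1 : ((x i : ℤ) : ZMod N) = ((y i : ℤ) : ZMod N) := congrFun hc i
  rw [ZMod.intCast_eq_intCast_iff_dvd_sub] at h1
  have h3 := h2 i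
  rw [Pi.sub_apply, abs_le] at h3
  obtain ⟨k, hk⟩ := h1
  have hN' : (3 : ℤ) ≤ N := by exact_mod_cast hN
  by_contra hne
  have hk0 : k ≠ 0 := by
    rintro rfl
    apply hne
    omega
  rcases lt_or_gt_of_ne hk0 with h4 | h4
  · have : (N : ℤ) * k ≤ -N := by nlinarith
    omega
  · have : (N : ℤ) ≤ N * k := by nlinarith
    omega

lemma sep_TS {N : ℕ} (hN : 3 ≤ N) (a : Fin d → ZMod N) : Sep (TS N a) := by
  intro x hx v hv hv2 hxv
  rw [mem_TS] at hx hxv
  refine cls_ne hN (x := x + v) (y := x) ?_ ?_ (hxv.trans hx.symm)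
  · simpa using hv
  · intro i
    rw [add_sub_cancel_left]
    exact hv2 i

lemma on_of_on_ringA {c : Aug d} (hc : Inv c) {A : Set (Site d)} {y : Site d} (hy : y ∉ A)
    {o : Option (Dr d)} (h : On (ringA A c) y o) : On c y o := by
  obtain ⟨h1, h2⟩ := h
  rw [ringA_ty_not hy] at h1 h2
  refine ⟨h1, fun v hv => ?_⟩
  have h3 := h2 v hv
  rw [ringA_T_not hy] at h3
  by_cases hz : y + v ∈ A
  · rw [ringA_T_mem hz] at h3
    have := hc.clock (y + v)
    have := hc.clock y
    omega
  · rwa [ringA_T_not hz] at h3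

lemma not_on_ringA {c : Aug d} (hc : Inv c) {A : Set (Site d)} {y : Site d} (hy : y ∉ A)
    {o : Option (Dr d)} {v : Site d} (hv : v ∈ (c.ty y).kil o) (hvA : y + v ∈ A) :
    ¬ On (ringA A c) y o := by
  rintro ⟨h1, h2⟩
  rw [ringA_ty_not hy] at h2
  have h3 := h2 v hv
  rw [ringA_T_not hy, ringA_T_mem hvA] at h3
  have := hc.clock y
  omega

open Classical in
/-- the sum over all classes -/
theorem sum_Fl_le {N : ℕ} [NeZero N] (hN : 3 ≤ N) (l : ℝ) (i0 : Fin d) {c : Aug d} (hc : Inv c)
    (t : Ty d) (o : Option (Dr d)) (y : Site d) :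
    ∑ a : Fin d → ZMod N, Fl l i0 t o y (ringA (TS N a) c) ≤
      ((nT d N : ℝ) - (1 + kc t o)) * Fl l i0 t o y c +
        if (c.ty (src y (best c y))).succ (best c y) = t then W' l i0 y c else 0 := by
  obtain ⟨hk1, hk2, hk3⟩ := kil_spec t o
  set E : Finset (Fin d → ZMod N) := ((t.kil o).toFinset).image (fun v => cls N (y + v)) with hE
  have hEc : E.card = kc t o := by
    rw [hE, Finset.card_image_of_injOn, List.toFinset_card_of_nodup hk1]
    · rfl
    · intro v hv w hw hvw
      rw [List.coe_toFinset] at hv hw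
      by_contra hne
      refine cls_ne hN (x := y + v) (y := y + w) (fun h => hne (add_left_cancel h)) ?_ hvw
      intro i
      rw [add_sub_add_left_eq_sub]
      exact hk3 v hv w hw i
  have hyE : cls N y ∉ E := by
    intro h
    rw [hE, Finset.mem_image] at h
    obtain ⟨v, hv, hvy⟩ := h
    rw [List.mem_toFinset] at hv
    refine cls_ne hN (x := y + v) (y := y) ?_ ?_ hvy
    · simpa using (hk2 v hv).1
    · intro i
      rw [add_sub_cancel_left]
      exact (hk2 v hv).2 i
  set X : ℝ := Fl l i0 t o y c with hX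
  set Y : ℝ := if (c.ty (src y (best c y))).succ (best c y) = t then W' l i0 y c else 0 with hY
  have hX0 : 0 ≤ X := Fl_nonneg _ _ _ _ _ _
  have h1 : ∀ a, Fl l i0 t o y (ringA (TS N a) c) ≤
      (if a = cls N y then Y else 0) + (if a = cls N y ∨ a ∈ E then 0 else X) := by
    intro a
    by_cases hay : a = cls N y
    · rw [if_pos hay, if_pos (Or.inl hay), add_zero]
      have hm : y ∈ TS N a := by rw [mem_TS, hay]
      unfold Fl
      rw [ringA_ty_mem hm, hY]
      by_cases h2 : (c.ty (src y (best c y))).succ (best c y) = t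
      · rw [if_pos h2]
        split_ifs
        · unfold W W'
          rw [ringA_h_mem hm]
        · exact (Real.exp_pos _).le
      · rw [if_neg h2, if_neg (fun h => h2 h.1)]
    · rw [if_neg hay, zero_add]
      have hm : y ∉ TS N a := fun h => hay (mem_TS.1 h).symm
      by_cases haE : a ∈ E
      · rw [if_pos (Or.inr haE)]
        rw [hE, Finset.mem_image] at haE
        obtain ⟨v, hv, hva⟩ := haE
        rw [List.mem_toFinset] at hv
        unfold Fl
        rw [ringA_ty_not hm]
        split_ifs with h2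
        · exfalso
          rw [← h2.1] at hv
          exact not_on_ringA hc hm hv (mem_TS.2 hva) h2.2
        · exact le_rfl
      · rw [if_neg (by tauto), hX]
        unfold Fl
        rw [ringA_ty_not hm]
        by_cases h2 : c.ty y = t ∧ On (ringA (TS N a) c) y o
        · rw [if_pos h2, if_pos ⟨h2.1, on_of_on_ringA hc hm h2.2⟩]
          unfold W
          rw [ringA_h_not hm]
        · rw [if_neg h2]
          split_ifs
          · exact (Real.exp_pos _).le
          · exact le_rfl
  refine (Finset.sum_le_sum fun a _ => h1 a).trans ?_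
  rw [Finset.sum_add_distrib, Finset.sum_ite_eq' Finset.univ (cls N y) (fun _ => Y)]
  rw [if_pos (Finset.mem_univ _)]
  have h2 : ∑ a : Fin d → ZMod N, (if a = cls N y ∨ a ∈ E then 0 else X) =
      ((nT d N : ℝ) - (1 + kc t o)) * X := by
    rw [← Finset.sum_filter_add_sum_filter_not Finset.univ (fun a => a = cls N y ∨ a ∈ E)]
    rw [Finset.sum_congr rfl (g := fun _ => (0 : ℝ)) (fun a ha => by
      rw [Finset.mem_filter] at ha
      rw [if_pos ha.2])]
    rw [Finset.sum_congr (s₁ := Finset.univ.filter (fun a => ¬ (a = cls N y ∨ a ∈ E))) rfl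
      (g := fun _ => X) (fun a ha => by
        rw [Finset.mem_filter] at ha
        rw [if_neg ha.2])]
    rw [Finset.sum_const_zero, zero_add, Finset.sum_const, nsmul_eq_mul]
    congr 1
    have h3 : (Finset.univ.filter (fun a : Fin d → ZMod N => ¬ (a = cls N y ∨ a ∈ E))) =
        Finset.univ \ (insert (cls N y) E) := by
      ext a
      simp
    rw [h3, Finset.card_sdiff_of_subset (Finset.subset_univ _), Finset.card_insert_of_notMem hyE, hEc]
    have h4 : kc t o + 1 ≤ (Finset.univ : Finset (Fin d → ZMod N)).card := by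
      rw [← hEc, ← Finset.card_insert_of_notMem hyE]
      exact Finset.card_le_card (Finset.subset_univ _)
    rw [Nat.cast_sub h4]
    unfold nT
    push_cast
    ring
  rw [h2, add_comm]

lemma W'_eq (l : ℝ) (i0 : Fin d) (y : Site d) (c : Aug d) {o : Option (Dr d)} (h : Val c y o) :
    W' l i0 y c = wt l i0 o * W l i0 (src y o) c := by
  cases o with
  | none =>
    have h1 : c.h y + 1 = newHeight c.h y := h
    unfold W' W wt src
    rw [← h1, ← Real.exp_add]
    congr 1
    push_cast
    ring
  | some f =>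
    have h1 : c.h (y - dv f) = newHeight c.h y := h
    unfold W' W wt src
    dsimp only
    rw [← h1, ← Real.exp_add]
    congr 1
    rw [Pi.sub_apply]
    push_cast
    ring

open Classical in
/-- the pairs of types and events which may occur -/
noncomputable def okS (d : ℕ) : Finset (Ty d × Option (Dr d)) :=
  Finset.univ.filter (fun p => p.1.alw p.2 ∧ good p.1)

lemma mem_okS {p : Ty d × Option (Dr d)} : p ∈ okS d ↔ p.1.alw p.2 ∧ good p.1 := by
  simp [okS]

/-- the pair of the best source -/
lemma best_mem {c : Aug d} (hc : Inv c) (y : Site d) :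
    (c.ty (src y (best c y)), best c y) ∈ okS d :=
  mem_okS.2 ⟨(on_best hc y).1, fun f' f h => hc.perp _ f' f h⟩

lemma W'_le (l : ℝ) (i0 : Fin d) {c : Aug d} (hc : Inv c) (y : Site d) :
    W' l i0 y c ≤ ∑ p ∈ okS d, wt l i0 p.2 * Fl l i0 p.1 p.2 (src y p.2) c := by
  classical
  refine le_trans (le_of_eq ?_) (Finset.single_le_sum (f := fun p : Ty d × Option (Dr d) =>
    wt l i0 p.2 * Fl l i0 p.1 p.2 (src y p.2) c)
    (fun p _ => mul_nonneg (wt_pos _ _ _).le (Fl_nonneg _ _ _ _ _ _)) (best_mem hc y))
  rw [W'_eq l i0 y c (best_spec c y).val]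
  dsimp only
  unfold Fl
  rw [if_pos ⟨rfl, on_best hc y⟩]

open Classical in
lemma new_le (l : ℝ) (i0 : Fin d) {c : Aug d} (hc : Inv c) (t : Ty d) (y : Site d) :
    (if (c.ty (src y (best c y))).succ (best c y) = t then W' l i0 y c else 0) ≤
      ∑ p ∈ okS d, (if p.1.succ p.2 = t then wt l i0 p.2 else 0) *
        Fl l i0 p.1 p.2 (src y p.2) c := by
  have hnn : ∀ p ∈ okS d, 0 ≤ (if p.1.succ p.2 = t then wt l i0 p.2 else 0) *
      Fl l i0 p.1 p.2 (src y p.2) c := fun p _ => by
    refine mul_nonneg ?_ (Fl_nonneg _ _ _ _ _ _)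
    split_ifs
    · exact (wt_pos _ _ _).le
    · exact le_rfl
  split_ifs with h
  · refine le_trans (le_of_eq ?_) (Finset.single_le_sum (f := fun p : Ty d × Option (Dr d) =>
      (if p.1.succ p.2 = t then wt l i0 p.2 else 0) * Fl l i0 p.1 p.2 (src y p.2) c)
      hnn (best_mem hc y))
    rw [W'_eq l i0 y c (best_spec c y).val]
    dsimp only
    unfold Fl
    rw [if_pos h, if_pos ⟨rfl, on_best hc y⟩]
  · exact Finset.sum_nonneg hnn

end Pool.Agent.Lib.MP_67d80e_pr_ub
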