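import Pool.Agent.Lib.MP_67d80e_pr_ub.Bound
import Pool.Agent.Lib.MP_67d80e_pr.Props

/-!
The growth inequality in the form used by the slope argument.
-/

set_option autoImplicit false

open scoped BigOperators
open Filter MeasureTheory
open Pool.Agent.Lib.MP_67d80e_pr

namespace Pool.Agent.Lib.MP_67d80e_pr_ub

variable {d : ℕ}

section
variable {N : ℕ} [NeZero N] {i0 : Fin d} {l r : ℝ} {φ : Ty d → ℝ}

/-- the constant of the box steps -/
noncomputable def cI (l : ℝ) (i0 : Fin d) (r : ℝ) (φ : Ty d → ℝ) (R i : ℕ) : ℝ :=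
  Real.log (cst l i0 r φ) / l + growC d l / l * ((i : ℝ) / (box d R).card)

/-- the upper bound on the mean height -/
lemma mean_hgt_le' (hφ : Super d i0 l r φ) (hl : 0 < l) (hN : 3 ≤ N) (R j i : ℕ) (x : Site d) :
    (PT d N ^ j * PB d R ^ i) (hgt x) (tilt i0) ≤
      x i0 + r / l * ((j : ℝ) / nT d N) + cI l i0 r φ R i := by
  have hd : 1 ≤ d := Nat.one_le_iff_ne_zero.2 (by rintro rfl; exact i0.elim0)
  have hC := growC_nonneg hd hl.le
  have hr := hφ.r_nonneg
  have hT : (0 : ℝ) < nT d N := by exact_mod_cast nT_pos (d := d) N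
  have hB : (0 : ℝ) < (box d R).card := by exact_mod_cast card_box_pos (d := d) R
  have hcst := cst_pos hφ
  have h1 := fun y => expF_le hφ hl.le hN j y
  have h2 := expF_pow (d := d) (box_nonempty R) (fun x => {x})
    (fun a _ b _ x hx hx' => by
      rw [Set.mem_singleton_iff] at hx hx'
      rw [← hx, ← hx']) hl.le i0 ((isMarkov_PT N).pow j) (tilt i0) h1 i x
  have hK1 : (0 : ℝ) < 1 + r / nT d N := by positivity
  have hK2 : (0 : ℝ) < 1 + growC d l / (box d R).card := by positivity
  have h3 := hgt_le_log hl (((isMarkov_PT N).pow j).mul ((isMarkov_PB R).pow i)) (tilt i0)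
    (by positivity) x h2
  refine h3.trans ?_
  rw [div_le_iff₀ hl, Real.log_mul (by positivity) (by positivity), Real.log_exp,
    Real.log_mul (by positivity) (by positivity), Real.log_mul (by positivity) (by positivity),
    Real.log_pow, Real.log_pow]
  have h4 : Real.log (1 + r / nT d N) ≤ r / nT d N := by
    have := Real.log_le_sub_one_of_pos hK1
    linarith
  have h5 : Real.log (1 + growC d l / (box d R).card) ≤ growC d l / (box d R).card := by
    have := Real.log_le_sub_one_of_pos hK2
    linarith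
  have h6 : (j : ℝ) * Real.log (1 + r / nT d N) ≤ j * (r / nT d N) :=
    mul_le_mul_of_nonneg_left h4 (Nat.cast_nonneg j)
  have h7 : (i : ℝ) * Real.log (1 + growC d l / (box d R).card) ≤
      i * (growC d l / (box d R).card) := mul_le_mul_of_nonneg_left h5 (Nat.cast_nonneg i)
  have h8 : (x i0 + r / l * ((j : ℝ) / nT d N) + cI l i0 r φ R i) * l =
      Real.log (cst l i0 r φ) + j * (r / nT d N) + i * (growC d l / (box d R).card) + l * x i0 := by
    unfold cI
    field_simp
    ring
  rw [h8]
  linarith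

/-- the growth inequality for one letter of the box -/
lemma ces_step' (hφ : Super d i0 l r φ) (hl : 0 < l) (hN : 3 ≤ N) {R : ℕ} (hR : 2 * R < N)
    {J : ℕ} (hJ : 0 < J) (i : ℕ) (x : Site d) :
    ces i0 N J ((PB d R ^ (i + 1)) (hgt x) - (PB d R ^ i) (hgt x)) ≤
      r / l / (box d R).card + cI l i0 r φ R i * nT d N / ((box d R).card * J) := by
  set u : Fn d := (PB d R ^ i) (hgt x) with hu
  have hT : (0 : ℝ) < nT d N := by exact_mod_cast nT_pos (d := d) N
  have hB : (0 : ℝ) < (box d R).card := by exact_mod_cast card_box_pos (d := d) R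
  have hJ' : (0 : ℝ) < J := by exact_mod_cast hJ
  have h1 : (PB d R ^ (i + 1)) (hgt x) = PB d R u := by
    rw [pow_succ', Module.End.mul_apply]
  have h2 : ((box d R).card : ℝ) • (PB d R u - u) ≤ (nT d N : ℝ) • (PT d N u - u) := by
    intro h
    have := PB_sub_le_PT_sub N hR (monotone_PB_pow R i x) h
    simpa using this
  have h3 := ces_mono N i0 J h2
  rw [map_smul, map_smul, ces_telescope, smul_eq_mul, smul_eq_mul] at h3
  have h4 : (PT d N ^ J) u (tilt i0) ≤
      x i0 + r / l * ((J : ℝ) / nT d N) + cI l i0 r φ R i := by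
    have := mean_hgt_le' hφ hl hN R J i x
    rwa [Module.End.mul_apply] at this
  have h5 : (x i0 : ℝ) ≤ u (tilt i0) := hgt_le_PB_pow R i x (tilt i0)
  have h6 : ((box d R).card : ℝ) * ces i0 N J (PB d R u - u) ≤ (nT d N : ℝ) * ((J : ℝ)⁻¹ *
      (r / l * ((J : ℝ) / nT d N) + cI l i0 r φ R i)) := by
    refine h3.trans (mul_le_mul_of_nonneg_left (mul_le_mul_of_nonneg_left ?_ ?_) hT.le)
    · linarith
    · positivity
  rw [h1]
  rw [← le_div_iff₀' hB] at h6
  refine h6.trans (le_of_eq ?_)
  field_simp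

end

/-- the growth inequality for `I` letters of the box, with the improved constant -/
theorem ces_growth' {i0 : Fin d} {l r : ℝ} {φ : Ty d → ℝ} (hφ : Super d i0 l r φ) (hl : 0 < l)
    (R I : ℕ) (x : Site d) : ∃ C : ℝ, ∀ N : ℕ, 2 * R ≤ N → 2 ≤ N →
    cesN i0 N ((PB d R ^ I) (hgt x) - hgt x) ≤
      r / l * (I / (box d R).card) + C / (N + 1) := by
  have hB : (0 : ℝ) < (box d R).card := by exact_mod_cast card_box_pos (d := d) R
  induction I with
  | zero =>
    refine ⟨0, fun N _ _ => ?_⟩
    have : (PB d R ^ 0) (hgt x) - hgt x = (fun _ => 0 : Fn d) := by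
      ext g; simp
    rw [this, cesN_const]
    simp
  | succ I ih =>
    obtain ⟨C, hC⟩ := ih
    refine ⟨C + cI l i0 r φ R I / (box d R).card, fun N hN1 hN2 => ?_⟩
    have h1 := hC N hN1 hN2
    have h2 := ces_step' (N := N + 1) hφ hl (by omega) (R := R) (by omega) (JN_pos d N) I x
    have h3 : (PB d R ^ (I + 1)) (hgt x) - hgt x =
        ((PB d R ^ (I + 1)) (hgt x) - (PB d R ^ I) (hgt x)) + ((PB d R ^ I) (hgt x) - hgt x) := by
      abel
    have hT : (0 : ℝ) < nT d (N + 1) := by exact_mod_cast nT_pos (d := d) (N + 1)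
    have h4 : cI l i0 r φ R I * nT d (N + 1) / ((box d R).card * (JN d N : ℕ)) =
        cI l i0 r φ R I / (box d R).card / (N + 1) := by
      unfold JN
      push_cast
      field_simp
    rw [h4] at h2
    rw [h3, map_add]
    change ces i0 (N + 1) (JN d N) _ + _ ≤ _
    push_cast
    have h5 : r / l * ((I + 1) / (box d R).card : ℝ) +
        (C + cI l i0 r φ R I / (box d R).card) / (N + 1) =
        (r / l / (box d R).card + cI l i0 r φ R I / (box d R).card / (N + 1)) +
          (r / l * (I / (box d R).card) + C / (N + 1)) := by ring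
    rw [h5]
    exact add_le_add h2 h1

end Pool.Agent.Lib.MP_67d80e_pr_ub
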