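import Pool.Agent.Lib.MP_67d80e_pr_ub.Cls
import Pool.Agent.Lib.MP_67d80e_pr_all.Stmts

/-!
The upper bound in the form of the general interface.
-/

set_option autoImplicit false

open scoped BigOperators
open Filter MeasureTheory
open Pool.Agent.Lib.MP_67d80e_pr

namespace Pool.Agent.Lib.MP_67d80e_pr_ub

/-- twelve numbers give the upper bound -/
theorem hasUB_pot {n : ℕ} {v : Pot} {q r : ℝ} (hq : 1 < q) (h : v.Ok ((n + 1 : ℕ) : ℝ) q r) :
    Pool.Agent.Lib.MP_67d80e_pr_all.HasUB n (r / Real.log q) := by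
  intro R I
  obtain ⟨C, hC⟩ := ces_growth_pot hq h (0 : Fin (n + 1)) R I 0
  exact ⟨C, 2 * R + 2, fun N hN => hC N (by omega) (by omega)⟩

end Pool.Agent.Lib.MP_67d80e_pr_ub
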