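import Pool.Agent.Lib.MP_67d80e_pr_ub.Aug

/-!
The invariants are preserved by rings at well separated sites.
-/

set_option autoImplicit false

open scoped BigOperators
open Filter MeasureTheory
open Pool.Agent.Lib.MP_67d80e_pr

namespace Pool.Agent.Lib.MP_67d80e_pr_ub

variable {d : ℕ}

open Ty

/-- the sites of `A` are far apart -/
def Sep (A : Set (Site d)) : Prop := ∀ x ∈ A, ∀ v : Site d, v ≠ 0 → (∀ i, |v i| ≤ 2) → x + v ∉ A

lemma Sep.add {A : Set (Site d)} (hA : Sep A) {x : Site d} (hx : x ∈ A) (f : Dr d) :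
    x + dv f ∉ A := hA x hx _ (dv_ne_zero f) fun i => (dv_abs_le f i).trans (by norm_num)

lemma Sep.sub {A : Set (Site d)} (hA : Sep A) {x : Site d} (hx : x ∈ A) (f : Dr d) :
    x - dv f ∉ A := by
  have := hA.add hx (op f)
  rwa [dv_op, ← sub_eq_add_neg] at this

lemma sub_dv_abs_le (f g : Dr d) (i : Fin d) : |(dv g - dv f) i| ≤ 2 := by
  have h1 := dv_abs_le g i
  have h2 := dv_abs_le f i
  rw [Pi.sub_apply]
  rw [abs_le] at h1 h2 ⊢
  omega

lemma sub_dv_ne_zero {f g : Dr d} (h : f.1 ≠ g.1) : dv g - dv f ≠ 0 := by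
  intro h0
  have h1 := congrFun h0 f.1
  rw [Pi.sub_apply, dv_apply_ne h, dv_apply_same] at h1
  split_ifs at h1 <;> simp at h1

lemma Sep.sq {A : Set (Site d)} (hA : Sep A) {x : Site d} (hx : x ∈ A) {f g : Dr d}
    (h : f.1 ≠ g.1) : x + (dv g - dv f) ∉ A :=
  hA x hx _ (sub_dv_ne_zero h) (sub_dv_abs_le f g)

lemma Sep.two {A : Set (Site d)} (hA : Sep A) {x : Site d} (hx : x ∈ A) {f g : Dr d}
    (h : g.1 ≠ f.1) : x - dv f - dv g ∉ A := by
  have h1 := hA.sq hx (f := f) (g := op g) (fun h' => h h'.symm)
  have h2 : x + (dv (op g) - dv f) = x - dv f - dv g := by rw [dv_op]; abel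
  rwa [h2] at h1

lemma lm_stay (t : Ty d) : (stay t).lm = none := by
  cases t <;> rfl

lemma lm_move (t : Ty d) (g : Dr d) : (move t g).lm = some g := by
  cases t with
  | S => rfl
  | S1 k => rfl
  | M1 k =>
    by_cases h : k.1 = g.1
    · simp [Ty.move, Ty.lm, h]
    · simp [Ty.move, Ty.lm, h]
  | M2 k' k =>
    by_cases h : k.1 = g.1
    · simp [Ty.move, Ty.lm, h]
    · simp [Ty.move, Ty.lm, h]

lemma lm_succ {t : Ty d} {o : Option (Dr d)} {f : Dr d} (h : (succ t o).lm = some f) :
    o = some f := by
  cases o with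
  | none =>
    change (stay t).lm = _ at h
    rw [lm_stay] at h
    simp at h
  | some g =>
    change (move t g).lm = _ at h
    rwa [lm_move] at h

lemma succ_eq_M2 {t : Ty d} {o : Option (Dr d)} {f' f : Dr d} (h : succ t o = M2 f' f) :
    o = some f ∧ t.lm = some f' ∧ f'.1 ≠ f.1 := by
  cases o with
  | none => cases t <;> simp [Ty.succ, Ty.stay] at h
  | some g =>
    cases t with
    | S => simp [Ty.succ, Ty.move] at h
    | S1 k => simp [Ty.succ, Ty.move] at h
    | M1 k =>
      simp only [Ty.succ, Ty.move] at h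
      split_ifs at h with hk
      simp only [M2.injEq] at h
      obtain ⟨rfl, rfl⟩ := h
      exact ⟨rfl, rfl, hk⟩
    | M2 k' k =>
      simp only [Ty.succ, Ty.move] at h
      split_ifs at h with hk
      simp only [M2.injEq] at h
      obtain ⟨rfl, rfl⟩ := h
      exact ⟨rfl, rfl, hk⟩

lemma succ_eq_S1 {t : Ty d} {o : Option (Dr d)} {f : Dr d} (h : succ t o = S1 f) :
    o = none ∧ t.lm = some f := by
  cases o with
  | none => cases t <;> simp_all [Ty.succ, Ty.stay, Ty.lm]
  | some g =>
    have h1 : (succ t (some g)).lm = some g := lm_move t g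
    rw [h] at h1
    simp [Ty.lm] at h1

/-- the invariants are preserved -/
theorem Inv.ringA {c : Aug d} (hc : Inv c) {A : Set (Site d)} (hA : Sep A) : Inv (ringA A c) := by
  have hb := best_spec c
  constructor
  · -- clock
    intro x
    rw [ringA_t]
    by_cases hx : x ∈ A
    · rw [ringA_T_mem hx]
    · rw [ringA_T_not hx]
      have := hc.clock x
      omega
  · -- nbr
    intro x f hT
    by_cases hx : x ∈ A
    · rw [ringA_T_mem hx, ringA_T_not (hA.add hx f)] at hT
      have := hc.clock (x + dv f)
      omega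
    · by_cases hz : x + dv f ∈ A
      · rw [ringA_h_not hx, ringA_h_mem hz]
        have := le_newHeight_dv' c.h (x + dv f) f
        rwa [add_sub_cancel_right] at this
      · rw [ringA_T_not hx, ringA_T_not hz] at hT
        rw [ringA_h_not hx, ringA_h_not hz]
        exact hc.nbr x f hT
  · -- par
    intro x f hl
    by_cases hx : x ∈ A
    · rw [ringA_ty_mem hx] at hl
      have ho := lm_succ hl
      have hbx := hb x
      rw [ho] at hbx
      have hv : c.h (x - dv f) = newHeight c.h x := hbx.val
      have hz := hA.sub hx f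
      rw [ringA_h_mem hx, ringA_h_not hz, ringA_n_mem hx, ringA_n_not hz, ringA_T_mem hx,
        ringA_T_not hz, ho]
      have hcl := hc.clock (x - dv f)
      simp only [rN]
      refine ⟨by omega, fun _ => ⟨le_rfl, by omega⟩, fun h => by omega⟩
    · rw [ringA_ty_not hx] at hl
      obtain ⟨h1, h2, h3⟩ := hc.par x f hl
      by_cases hz : x - dv f ∈ A
      · rw [ringA_h_not hx, ringA_h_mem hz, ringA_n_not hx, ringA_n_mem hz, ringA_T_not hx,
          ringA_T_mem hz]
        have h4 := succ_le_newHeight c.h (x - dv f)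
        refine ⟨by omega, fun h => by omega, fun h => ?_⟩
        have h5 : c.h (x - dv f) = c.h x := by omega
        have h6 := (h2 h5).1
        have h7 : Val c (x - dv f) none := by
          change c.h (x - dv f) + 1 = _
          omega
        have h8 := (hb (x - dv f)).min _ h7
        have h9 : rN c (x - dv f) none = c.n (x - dv f) := rfl
        omega
      · rw [ringA_h_not hx, ringA_h_not hz, ringA_n_not hx, ringA_n_not hz, ringA_T_not hx,
          ringA_T_not hz]
        exact ⟨h1, h2, h3⟩
  · -- sq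
    intro x f g hl hfg hT
    by_cases hx : x ∈ A
    · rw [ringA_T_mem hx, ringA_T_not (hA.sq hx hfg)] at hT
      have := hc.clock (x + (dv g - dv f))
      omega
    · rw [ringA_ty_not hx] at hl
      by_cases hz : x + (dv g - dv f) ∈ A
      · rw [ringA_h_not hx, ringA_h_mem hz, ringA_n_not hx, ringA_n_mem hz]
        obtain ⟨h1, h2, -⟩ := hc.par x f hl
        have hz' : x - dv f = x + (dv g - dv f) - dv g := by abel
        have h3 := le_newHeight_dv' c.h (x + (dv g - dv f)) g
        rw [← hz'] at h3
        refine ⟨by omega, fun h => ?_⟩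
        have h4 : c.h (x - dv f) = c.h x := by omega
        have h5 := (h2 h4).1
        have h6 : Val c (x + (dv g - dv f)) (some g) := by
          change c.h (x + (dv g - dv f) - dv g) = _
          rw [← hz']
          omega
        have h7 := (hb (x + (dv g - dv f))).min _ h6
        have h8 : rN c (x + (dv g - dv f)) (some g) = c.n (x - dv f) + 1 := by
          simp only [rN]
          rw [← hz']
        omega
      · rw [ringA_T_not hx, ringA_T_not hz] at hT
        rw [ringA_h_not hx, ringA_h_not hz, ringA_n_not hx, ringA_n_not hz]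
        exact hc.sq x f g hl hfg hT
  · -- two
    intro x f' f ht
    by_cases hx : x ∈ A
    · rw [ringA_ty_mem hx] at ht
      obtain ⟨ho, hl, hff⟩ := succ_eq_M2 ht
      have hbx := hb x
      rw [ho] at hbx hl
      have hv : c.h (x - dv f) = newHeight c.h x := hbx.val
      have hz := hA.two hx hff
      rw [ringA_h_mem hx, ringA_h_not hz, ringA_n_mem hx, ringA_n_not hz, ho]
      obtain ⟨h1, h2, -⟩ := hc.par (x - dv f) f' hl
      simp only [rN]
      refine ⟨by omega, fun h => ?_⟩
      have := (h2 (by omega)).1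
      omega
    · rw [ringA_ty_not hx] at ht
      obtain ⟨h1, h2⟩ := hc.two x f' f ht
      by_cases hz : x - dv f - dv f' ∈ A
      · rw [ringA_h_not hx, ringA_h_mem hz, ringA_n_not hx, ringA_n_mem hz]
        have h4 := succ_le_newHeight c.h (x - dv f - dv f')
        exact ⟨by omega, fun h => by omega⟩
      · rw [ringA_h_not hx, ringA_h_not hz, ringA_n_not hx, ringA_n_not hz]
        exact ⟨h1, h2⟩
  · -- one
    intro x f ht
    by_cases hx : x ∈ A
    · rw [ringA_ty_mem hx] at ht
      obtain ⟨ho, hl⟩ := succ_eq_S1 ht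
      have hbx := hb x
      rw [ho] at hbx hl
      have hv : c.h x + 1 = newHeight c.h x := hbx.val
      have hz := hA.sub hx f
      rw [ringA_h_mem hx, ringA_h_not hz, ringA_n_mem hx, ringA_n_not hz, ho]
      obtain ⟨h1, h2, -⟩ := hc.par x f hl
      simp only [rN]
      refine ⟨by omega, fun h => ?_⟩
      have := (h2 (by omega)).1
      omega
    · rw [ringA_ty_not hx] at ht
      obtain ⟨h1, h2⟩ := hc.one x f ht
      by_cases hz : x - dv f ∈ A
      · rw [ringA_h_not hx, ringA_h_mem hz, ringA_n_not hx, ringA_n_mem hz]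
        have h4 := succ_le_newHeight c.h (x - dv f)
        exact ⟨by omega, fun h => by omega⟩
      · rw [ringA_h_not hx, ringA_h_not hz, ringA_n_not hx, ringA_n_not hz]
        exact ⟨h1, h2⟩
  · -- perp
    intro x f' f ht
    by_cases hx : x ∈ A
    · rw [ringA_ty_mem hx] at ht
      exact (succ_eq_M2 ht).2.2
    · rw [ringA_ty_not hx] at ht
      exact hc.perp x f' f ht

end Pool.Agent.Lib.MP_67d80e_pr_ub
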